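import Mathlib

/-!
Covers and fractional covers of the triangular grid.
-/

namespace Pool.Agent.MP_0ea322_co.h46

open Finset

/-- An affine hyperplane of `ℝ^d`. -/
def IsHyperplane {d : ℕ} (H : Set (Fin d → ℝ)) : Prop :=
  ∃ (a : Fin d → ℝ) (c : ℝ), a ≠ 0 ∧ H = {x | ∑ i, a i * x i = c}

/-- The triangular grid `T_d(n)`. -/
def grid (d n : ℕ) : Set (Fin d → ℝ) :=
  {x | ∃ p : Fin d → ℕ, ∑ i, p i + 1 ≤ n ∧ x = fun i => (p i : ℝ)}

open Classical in
/-- `C` is a `k`-cover of `T_d(n)`. -/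
def IsCover (n d k : ℕ) (C : Multiset (Set (Fin d → ℝ))) : Prop :=
  (∀ H ∈ C, IsHyperplane H) ∧ ∀ x ∈ grid d n, k ≤ C.countP fun H => x ∈ H

/-- The least cardinality of a `k`-cover of `T_d(n)`. -/
noncomputable def f (n d k : ℕ) : ℕ := sInf {N | ∃ C, IsCover n d k C ∧ C.card = N}

open Classical in
/-- `w` is a fractional cover of `T_d(m)`. -/
def IsFracCover (m d : ℕ) (w : Set (Fin d → ℝ) →₀ ℝ) : Prop :=
  (∀ H, 0 ≤ w H) ∧ (∀ H ∈ w.support, IsHyperplane H) ∧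
    ∀ x ∈ grid d m, 1 ≤ ∑ H ∈ w.support with x ∈ H, w H

/-- The least total weight of a fractional cover of `T_d(m)`. -/
noncomputable def fstar (m d : ℕ) : ℝ :=
  sInf {t | ∃ w, IsFracCover m d w ∧ ∑ H ∈ w.support, w H = t}

end Pool.Agent.MP_0ea322_co.h46
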