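import Mathlib

/-!
A nonconstant function is constant on the pairs of few matchings.
-/

namespace Pool.Agent.MP_0ea322_co.h46

open Finset Equiv

variable {ι J : Type} [DecidableEq ι] {π : ι → ι}

/-- Swapping `p` and `q` makes `c` invariant. -/
def Fib (π : ι → ι) (c : ι → Prop) (p q : ι) : Prop :=
  c q ∧ ¬ c p ∧ ∀ x, c (swap p q (π x)) ↔ c (swap p q x)

lemma Fib.facts (hπ : ∀ x, π (π x) = x) {c : ι → Prop} {p q : ι} (h : Fib π c p q) :
    p ≠ q ∧ π p ≠ q ∧ (π p ≠ p → c (π p)) ∧ (π q ≠ q → ¬ c (π q)) ∧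
      ∀ x, c x → ¬ c (π x) → x = π p ∨ x = q := by
  obtain ⟨h1, h2, h3⟩ := h
  have e0 : p ≠ q := fun e => h2 (e ▸ h1)
  have e1 : π p ≠ q := by
    intro e
    have := h3 p
    rw [e, swap_apply_left, swap_apply_right] at this
    exact h2 (this.2 h1)
  have e2 : π q ≠ p := fun e => e1 (by rw [← e, hπ])
  refine ⟨e0, e1, fun e => ?_, fun e => ?_, fun x hx hx' => ?_⟩
  · have := h3 p
    rw [swap_apply_left, swap_apply_of_ne_of_ne e e1] at this
    exact this.2 h1
  · have := h3 q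
    rw [swap_apply_right, swap_apply_of_ne_of_ne e2 e] at this
    exact fun h => h2 (this.1 h)
  · by_contra hc
    push Not at hc
    have e3 : x ≠ p := fun e => h2 (e ▸ hx)
    have e4 : π x ≠ p := fun e => hc.1 (by rw [← e, hπ])
    have e5 : π x ≠ q := fun e => hx' (e ▸ h1)
    have := h3 x
    rw [swap_apply_of_ne_of_ne e4 e5, swap_apply_of_ne_of_ne e3 hc.2] at this
    exact hx' (this.2 hx)

lemma Fib.mem (hπ : ∀ x, π (π x) = x) (hz : ∀ x y, π x = x → π y = y → x = y) {c : ι → Prop}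
    {p q p' q' : ι} (h : Fib π c p q) (h' : Fib π c p' q') : q' = π p ∨ q' = q := by
  obtain ⟨a0, a1, a2, a3, a4⟩ := h.facts hπ
  obtain ⟨b0, b1, b2, b3, b4⟩ := h'.facts hπ
  by_cases e : π q' = q'
  · by_cases e1 : π p = p
    · exact Or.inl (by rw [e1]; exact hz _ _ e e1)
    by_cases e2 : π q = q
    · exact Or.inr (hz _ _ e e2)
    have c1 := b4 (π p) (a2 e1) (by rw [hπ]; exact h.2.1)
    have c2 := b4 q h.1 (a3 e2)
    rcases c1 with c1 | c1
    · rcases c2 with c2 | c2
      · exact absurd (c1.trans c2.symm) a1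
      · exact Or.inr c2.symm
    · exact Or.inl c1.symm
  · exact a4 q' h'.1 (b3 e)

lemma Fib.inj (hπ : ∀ x, π (π x) = x) (hz : ∀ x y, π x = x → π y = y → x = y) {c : ι → Prop}
    {p p' q : ι} (h : Fib π c p q) (h' : Fib π c p' q) : p = p' := by
  obtain ⟨a0, a1, a2, a3, a4⟩ := h.facts hπ
  obtain ⟨b0, b1, b2, b3, b4⟩ := h'.facts hπ
  have inj : ∀ x y, π x = π y → x = y := fun x y e => by rw [← hπ x, e, hπ]
  by_cases e : π p = p
  · by_cases e' : π p' = p'
    · exact hz _ _ e e'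
    · rcases a4 (π p') (b2 e') (by rw [hπ]; exact h'.2.1) with c1 | c1
      · exact (inj _ _ c1).symm
      · exact absurd c1 b1
  · rcases b4 (π p) (a2 e) (by rw [hπ]; exact h.2.1) with c1 | c1
    · exact inj _ _ c1
    · exact absurd c1 a1

variable [Fintype ι]

open Classical in
lemma top_count (hπ : ∀ x, π (π x) = x) (hz : ∀ x y, π x = x → π y = y → x = y) (a : ι → ℝ)
    (ha : ∃ i j, a i ≠ a j) :
    (Fintype.card ι - 1) * (univ.filter fun σ : Perm ι => ∀ x, a (σ (π x)) = a (σ x)).card ≤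
      2 * Fintype.card (Perm ι) := by
  obtain ⟨i, j, hij⟩ := ha
  set T := univ.filter fun σ : Perm ι => ∀ x, a (σ (π x)) = a (σ x) with hT
  let X : Finset (Perm ι × ι × ι) :=
    (T ×ˢ univ).filter fun w => a (w.1 w.2.1) = a i ∧ a (w.1 w.2.2) ≠ a i
  have h1 : X.card ≤ 2 * Fintype.card (Perm ι) := by
    refine card_le_mul_card_image_of_maps_to (t := univ) (f := fun w => w.1 * swap w.2.1 w.2.2)
      (fun _ _ => mem_univ _) 2 fun τ _ => ?_
    have key : ∀ w ∈ X.filter fun w => w.1 * swap w.2.1 w.2.2 = τ,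
        Fib π (fun x => a (τ x) = a i) w.2.1 w.2.2 ∧ w.1 = τ * swap w.2.1 w.2.2 := by
      rintro ⟨σ, p, q⟩ hw
      obtain ⟨hX, rfl⟩ := mem_filter.1 hw
      obtain ⟨hw', e1, e2⟩ := mem_filter.1 hX
      have e3 := (mem_filter.1 (mem_product.1 hw').1).2
      refine ⟨⟨by simpa using e1, by simpa using e2, fun x => ?_⟩, by simp [mul_assoc]⟩
      simp only [Perm.mul_apply, swap_apply_self]
      rw [e3 x]
    rcases (X.filter fun w => w.1 * swap w.2.1 w.2.2 = τ).eq_empty_or_nonempty with h | ⟨w₀, h₀⟩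
    · rw [h]; simp
    refine le_trans (card_le_card_of_injOn (t := {π w₀.2.1, w₀.2.2}) (fun w => w.2.2)
      (fun w hw => ?_) fun w hw w' hw' e => ?_) card_le_two
    · simpa using (key w₀ h₀).1.mem hπ hz (key w hw).1
    · have e1 := key w hw
      have e2 := key w' hw'
      have e' : w.2.2 = w'.2.2 := e
      have e3 : w.2.1 = w'.2.1 := e1.1.inj hπ hz (e' ▸ e2.1)
      exact Prod.ext (by rw [e1.2, e2.2, e3, e']) (Prod.ext e3 e')
  refine le_trans ?_ h1
  rw [card_eq_sum_card_fiberwise (f := fun w => w.1) (s := X) (t := T)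
    (fun w hw => (mem_product.1 (mem_filter.1 hw).1).1), mul_comm, ← smul_eq_mul]
  refine card_nsmul_le_sum _ _ _ fun σ hσ => ?_
  rw [← card_univ, ← card_erase_of_mem (mem_univ (σ.symm i))]
  refine card_le_card_of_injOn
    (fun w => if a (σ w) = a i then (σ, w, σ.symm j) else (σ, σ.symm i, w)) (fun w _ => ?_) ?_
  · simp only [coe_filter, Set.mem_ofPred_eq, X, mem_filter, mem_product, mem_univ, and_true]
    split_ifs with e
    · exact ⟨⟨hσ, e, by simpa using hij.symm⟩, rfl⟩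
    · exact ⟨⟨hσ, by simp, e⟩, rfl⟩
  · intro w hw w' hw' e
    have f1 : w ≠ σ.symm i := (mem_erase.1 hw).1
    have f2 : w' ≠ σ.symm i := (mem_erase.1 hw').1
    dsimp only at e
    split_ifs at e <;> simp_all

open Classical in
/-- Some relabelling of the matching `π` has few functions constant on all its pairs. -/
theorem few_top [Fintype J] (hπ : ∀ x, π (π x) = x) (hz : ∀ x y, π x = x → π y = y → x = y)
    (a : J → ι → ℝ) (ha : ∀ j, ∃ x y, a j x ≠ a j y) : ∃ σ : Perm ι,
    (Fintype.card ι - 1) * (univ.filter fun j => ∀ x, a j (σ (π x)) = a j (σ x)).card ≤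
      2 * Fintype.card J := by
  have h : ∑ σ : Perm ι, (Fintype.card ι - 1) *
      (univ.filter fun j => ∀ x, a j (σ (π x)) = a j (σ x)).card ≤
      ∑ _σ : Perm ι, 2 * Fintype.card J := by
    rw [← mul_sum]
    simp only [card_filter]
    rw [sum_comm, mul_sum]
    refine (sum_le_sum (g := fun _ => 2 * Fintype.card (Perm ι)) fun j _ => ?_).trans ?_
    · rw [← card_filter]
      exact top_count hπ hz (a j) (ha j)
    · simp only [sum_const, card_univ, smul_eq_mul]
      exact le_of_eq (by ring)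
  obtain ⟨σ, -, hσ⟩ := exists_le_of_sum_le univ_nonempty h
  exact ⟨σ, hσ⟩

end Pool.Agent.MP_0ea322_co.h46
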