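import Pool.Agent.MP_0ea322_co.h46.Tree
import Pool.Agent.MP_0ea322_co.h46.Switch

/-!
The counting bound for covers of the triangular grid in homogeneous coordinates.
-/

namespace Pool.Agent.MP_0ea322_co.h46

open Finset Equiv

/-- Positions. -/
def pos (d i : ℕ) : Fin (d + 1) := ⟨min i d, by omega⟩

/-- The standard matching of positions. -/
def mate (d : ℕ) (x : Fin (d + 1)) : Fin (d + 1) :=
  pos d (if x.val % 2 = 0 then x.val + 1 else x.val - 1)

lemma mate_mate (d : ℕ) (x : Fin (d + 1)) : mate d (mate d x) = x := by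
  have := x.2
  apply Fin.ext
  simp only [mate, pos]
  split_ifs <;> omega

lemma mate_fix (d : ℕ) (x y : Fin (d + 1)) (hx : mate d x = x) (hy : mate d y = y) : x = y := by
  have := x.2
  have := y.2
  have h1 := congrArg Fin.val hx
  have h2 := congrArg Fin.val hy
  apply Fin.ext
  simp only [mate, pos] at h1 h2
  split_ifs at h1 h2 <;> omega

/-- Tail of the move number `s`. -/
def tl (d s : ℕ) : Fin (d + 1) :=
  pos d (if s < (d + 1) / 2 then 2 * s else 2 * (s - (d + 1) / 2))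

/-- Head of the move number `s`. -/
def hd (d s : ℕ) : Fin (d + 1) :=
  pos d (if s < (d + 1) / 2 then 2 * s + 1 else 2 * (s - (d + 1) / 2) + 2)

lemma conn {d : ℕ} {b : Fin (d + 1) → ℝ} (h : ∀ s < d, b (tl d s) = b (hd d s)) (x : Fin (d + 1)) :
    b x = b (pos d 0) := by
  have key : ∀ i ≤ d, b (pos d i) = b (pos d 0) := by
    intro i
    induction i using Nat.strong_induction_on with
    | _ i ih =>
      intro hi
      rcases Nat.eq_zero_or_pos i with rfl | h0
      · rfl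
      rcases Nat.even_or_odd' i with ⟨t, rfl | rfl⟩
      · have h1 := h ((d + 1) / 2 + (t - 1)) (by omega)
        simp only [tl, hd, if_neg (Nat.not_lt.2 (Nat.le_add_right _ _)),
          Nat.add_sub_cancel_left] at h1
        rw [show 2 * t = 2 * (t - 1) + 2 by omega, ← h1]
        exact ih _ (by omega) (by omega)
      · have h1 := h t (by omega)
        simp only [tl, hd, if_pos (show t < (d + 1) / 2 by omega)] at h1
        rw [← h1]
        exact ih _ (by omega) (by omega)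
  have := key x.val (by have := x.2; omega)
  rwa [show pos d x.val = x from Fin.ext (by have := x.2; simp only [pos]; omega)] at this

lemma inv_mate {d : ℕ} {b : Fin (d + 1) → ℝ} (h : ∀ s < (d + 1) / 2, b (tl d s) = b (hd d s))
    (x : Fin (d + 1)) : b (mate d x) = b x := by
  have hx := x.2
  by_cases h0 : x.val / 2 < (d + 1) / 2
  · have h1 := h _ h0
    simp only [tl, hd, if_pos h0] at h1
    by_cases h2 : x.val % 2 = 0
    · rw [show mate d x = pos d (2 * (x.val / 2) + 1) by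
        simp only [mate, if_pos h2]; congr 1; omega, ← h1]
      congr 1
      exact Fin.ext (by simp only [pos]; omega)
    · rw [show mate d x = pos d (2 * (x.val / 2)) by
        simp only [mate, if_neg h2]; congr 1; omega, h1]
      congr 1
      exact Fin.ext (by simp only [pos]; omega)
  · congr 1
    apply Fin.ext
    simp only [mate, pos]
    split_ifs <;> omega

open Classical in
theorem count {J : Type} [Fintype J] {d n K L ρ s : ℕ} (hd1 : 1 ≤ d)
    (a : J → Fin (d + 1) → ℝ) (c : J → ℝ) (ha : ∀ j, ∃ x y, a j x ≠ a j y)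
    (hc : ∀ x : Fin (d + 1) → ℕ, ∑ i, x i + 1 = n →
      K < (univ.filter fun j => dot (a j) x = c j).card)
    (hs : s ≤ (d + 1) / 2) (hK : (d + 1) / 2 * L + s + (d - (d + 1) / 2) * ρ ≤ K) :
    (n : ℝ) ≤ Fintype.card J *
      ((L + 2 - s / ((d + 1) / 2 : ℕ)) / ((L + 1) * (L + 2)) + 2 / (d * (ρ + 1))) := by
  obtain ⟨σ, hσ⟩ := few_top (mate_mate d) (mate_fix d) a ha
  set m := (d + 1) / 2 with hm
  have hm1 : 1 ≤ m := by omega
  have hmd : m ≤ d := by omega
  have hex : ∀ j, ∃ t, t < d ∧ a j (σ (tl d t)) ≠ a j (σ (hd d t)) := by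
    intro j
    by_contra h
    push Not at h
    obtain ⟨x, y, hxy⟩ := ha j
    have h1 := conn (b := fun x => a j (σ x)) h
    have h2 := (h1 (σ.symm x)).trans (h1 (σ.symm y)).symm
    simp only [apply_symm_apply] at h2
    exact hxy h2
  have hex' : ∀ j, ∃ t, a j (σ (tl d t)) ≠ a j (σ (hd d t)) := fun j => (hex j).imp fun _ h => h.2
  let dec : J → ℕ := fun j => Nat.find (hex' j)
  have hdec : ∀ j, dec j < d := fun j =>
    let ⟨t, h1, h2⟩ := hex j
    (Nat.find_min' (hex' j) h2).trans_lt h1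
  have hmin : ∀ j t, t < dec j → a j (σ (tl d t)) = a j (σ (hd d t)) := fun j t h =>
    not_not.1 (Nat.find_min (hex' j) h)
  let e : ℕ → ℝ := fun t => ((univ.filter fun j => dec j = t).card : ℝ)
  obtain ⟨S, hS1, hS2, hS3⟩ := share e (fun _ => Nat.cast_nonneg _) s (range m) (by simpa using hs)
  rw [card_range] at hS3
  let r : ℕ → ℕ := fun t => if t < m then (L + if t ∈ S then 1 else 0) else ρ
  obtain ⟨need, h1, h2⟩ := tree a c (fun t => σ (tl d t)) (fun t => σ (hd d t)) r dec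
    (fun j => Nat.find_spec (hex' j)) hmin d
  have hr : ∑ t ∈ range d, r t ≤ K := by
    rw [← sum_range_add_sum_Ico _ hmd]
    have e1 : ∑ t ∈ range m, r t = m * L + s := by
      rw [sum_congr rfl fun t ht => if_pos (mem_range.1 ht), sum_add_distrib, sum_const, card_range,
        smul_eq_mul, ← card_filter, filter_mem_eq_inter, inter_eq_right.2 hS1, hS2]
    have e2 : ∑ t ∈ Ico m d, r t = (d - m) * ρ := by
      rw [sum_congr rfl fun t ht => if_neg (not_lt.2 (mem_Ico.1 ht).1), sum_const, Nat.card_Ico,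
        smul_eq_mul]
    rw [e1, e2]
    exact hK
  have hneed : n ≤ ∑ i, need i := by
    by_contra h
    obtain ⟨y, hy1, -, hy3⟩ := h2 (need + Pi.single 0 (n - 1 - ∑ i, need i)) fun i => by simp
    simp only [Pi.add_apply, sum_add_distrib, sum_pi_single', mem_univ, if_true] at hy1
    have h3 := hc y (by omega)
    simp only [hdec, true_and] at hy3
    omega
  refine le_trans (by exact_mod_cast hneed) (h1.trans ?_)
  rw [← sum_range_add_sum_Ico _ hmd, mul_add]
  have hL : (0 : ℝ) ≤ L := Nat.cast_nonneg _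
  have hmp : (0 : ℝ) < m := by exact_mod_cast hm1
  have hdp : (0 : ℝ) < d := by exact_mod_cast hd1
  have hfib : ∀ T : Finset ℕ, ∑ t ∈ T, e t = ((univ.filter fun j => dec j ∈ T).card : ℝ) := by
    intro T
    simp only [e]
    exact_mod_cast sum_card_fiberwise_eq_card_filter univ T dec
  refine add_le_add ?_ ?_
  · have e1 : ∑ t ∈ range m, e t / (r t + 1) =
        (∑ t ∈ range m, e t) / (L + 1) - (∑ t ∈ S, e t) / ((L + 1) * (L + 2)) := by
      rw [← inter_eq_right.2 hS1, ← sum_ite_mem, sum_div, sum_div, ← sum_sub_distrib]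
      refine sum_congr rfl fun t ht => ?_
      simp only [r, if_pos (mem_range.1 ht)]
      split_ifs
      · push_cast
        field_simp
        ring
      · simp
    have e2 : ∑ t ∈ range m, e t ≤ Fintype.card J := by
      rw [hfib]
      exact_mod_cast card_le_univ _
    have e3 : (s : ℝ) / m ≤ 1 := (div_le_one hmp).2 (by exact_mod_cast hs)
    have e4 : (∑ t ∈ range m, e t) * (s / m) ≤ ∑ t ∈ S, e t := by
      rw [← mul_div_assoc, div_le_iff₀ hmp]
      linarith
    refine e1.trans_le (le_trans ?_ (mul_le_mul_of_nonneg_right e2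
      (div_nonneg (by linarith) (by positivity))))
    rw [← mul_div_assoc, le_div_iff₀ (by positivity), sub_mul, div_mul_cancel₀ _ (by positivity),
      ← mul_assoc, div_mul_cancel₀ _ (by positivity)]
    linarith
  · have e1 : ∑ t ∈ Ico m d, e t / (r t + 1) = (∑ t ∈ Ico m d, e t) / (ρ + 1) := by
      rw [sum_div]
      refine sum_congr rfl fun t ht => ?_
      simp only [r, if_neg (not_lt.2 (mem_Ico.1 ht).1)]
    have e2 : d * (univ.filter fun j => dec j ∈ Ico m d).card ≤ 2 * Fintype.card J := by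
      rw [Fintype.card_fin, Nat.add_sub_cancel] at hσ
      refine le_trans (Nat.mul_le_mul_left d (card_le_card fun j hj => ?_)) hσ
      simp only [mem_filter, mem_univ, true_and] at hj ⊢
      exact inv_mate (b := fun x => a j (σ x))
        fun t ht => hmin j t (ht.trans_le (mem_Ico.1 hj).1)
    have e3 : (d : ℝ) * ∑ t ∈ Ico m d, e t ≤ 2 * Fintype.card J := by
      rw [hfib]
      exact_mod_cast e2
    refine e1.trans_le ?_
    rw [← div_div, ← mul_div_assoc, ← mul_div_assoc]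
    refine div_le_div_of_nonneg_right ?_ (by positivity)
    rw [le_div_iff₀ hdp]
    linarith

/-- The numerical step. -/
lemma numeric {d L ρ θ θ' : ℝ} (hd0 : 0 < d) (hρ : 0 ≤ ρ) (h0 : 0 ≤ θ)
    (h1 : θ ≤ θ') (h2 : θ ≤ 1) (hL : 0 ≤ L) :
    (L + ρ + 1) * (L + ρ + 2) / (L + ρ + 2 - θ) *
      ((L + 2 - θ') / ((L + 1) * (L + 2)) + 2 / (d * (ρ + 1))) ≤
      1 + ρ / (L + 1) + 2 * (L + ρ + 2) / (d * (ρ + 1)) := by
  have hA : 0 < L + ρ + 2 - θ := by linarith
  have e1 : (L + ρ + 1) * (L + ρ + 2) / (L + ρ + 2 - θ) * ((L + 2 - θ') / ((L + 1) * (L + 2))) ≤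
      1 + ρ / (L + 1) := by
    have f2 : (L + ρ + 2) * (L + 2 - θ') / ((L + ρ + 2 - θ) * (L + 2)) ≤ 1 := by
      rw [div_le_one (by positivity)]
      nlinarith [mul_nonneg hρ h0, mul_nonneg (by linarith : 0 ≤ L + ρ + 2) (sub_nonneg.2 h1)]
    calc _ = (L + ρ + 1) / (L + 1) *
          ((L + ρ + 2) * (L + 2 - θ') / ((L + ρ + 2 - θ) * (L + 2))) := by field_simp
      _ ≤ (L + ρ + 1) / (L + 1) * 1 := mul_le_mul_of_nonneg_left f2 (by positivity)
      _ = _ := by
        field_simp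
        ring
  have e2 : (L + ρ + 1) * (L + ρ + 2) / (L + ρ + 2 - θ) * (2 / (d * (ρ + 1))) ≤
      2 * (L + ρ + 2) / (d * (ρ + 1)) := by
    have f1 : (L + ρ + 1) * (L + ρ + 2) / (L + ρ + 2 - θ) ≤ L + ρ + 2 := by
      rw [div_le_iff₀ hA]
      nlinarith
    refine (mul_le_mul_of_nonneg_right f1 (by positivity)).trans (le_of_eq ?_)
    ring
  rw [mul_add]
  linarith

/-- The choice of the level of the moves between pairs. -/
lemma level {d K M : ℕ} (hd1 : 1 ≤ d) (hM : (d + 1) * M ≤ 2 * K) : ∃ L ρ : ℕ, M = L + ρ ∧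
    (ρ : ℝ) / (L + 1) + 2 * (L + ρ + 2) / (d * (ρ + 1)) ≤
      4 / d + min (4 * K / d ^ 2 : ℝ) (3 / √d) := by
  have hdp : (1 : ℝ) ≤ d := by exact_mod_cast hd1
  have hM0 : (0 : ℝ) ≤ M := Nat.cast_nonneg _
  rcases le_total (4 * K / d ^ 2 : ℝ) (3 / √d) with h | h
  · refine ⟨M, 0, rfl, ?_⟩
    have h1 : ((d : ℝ) + 1) * M ≤ 2 * K := by exact_mod_cast hM
    rw [min_eq_left h]
    have h2 : 2 * (M : ℝ) / d ≤ 4 * K / d ^ 2 := by
      rw [div_le_div_iff₀ (by linarith) (by positivity)]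
      nlinarith
    have h3 : 2 * ((M : ℝ) + 0 + 2) / (d * (0 + 1)) = 4 / d + 2 * M / d := by ring
    push_cast
    rw [h3, zero_div]
    linarith
  rw [min_eq_right h]
  have hw : 1 ≤ √(d : ℝ) := Real.one_le_sqrt.2 hdp
  have hd : √(d : ℝ) * √(d : ℝ) = d := Real.mul_self_sqrt (by linarith)
  generalize √(d : ℝ) = w at hw hd
  let ρ := ⌊(M + 1 : ℝ) / (1 + w)⌋₊
  have r1 : (ρ : ℝ) * (1 + w) ≤ M + 1 :=
    (le_div_iff₀ (by linarith)).1 (Nat.floor_le (by positivity))
  have r2 : (M + 1 : ℝ) ≤ (ρ + 1) * (1 + w) :=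
    (div_le_iff₀ (by linarith)).1 (Nat.lt_floor_add_one _).le
  have r0 : (0 : ℝ) ≤ ρ := Nat.cast_nonneg _
  have r3 : 2 * ρ ≤ M + 1 := by
    have : (2 * ρ : ℝ) ≤ M + 1 := by nlinarith
    exact_mod_cast this
  obtain ⟨L, hL⟩ : ∃ L, M = L + ρ := ⟨M - ρ, by omega⟩
  have hL' : (M : ℝ) = L + ρ := by exact_mod_cast hL
  refine ⟨L, ρ, hL, ?_⟩
  have e1 : (ρ : ℝ) / (L + 1) ≤ 1 / w := by
    rw [div_le_div_iff₀ (by positivity) (by linarith)]
    nlinarith
  have e2 : 2 * ((L : ℝ) + ρ + 2) / (d * (ρ + 1)) ≤ 2 * (2 + w) / d := by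
    rw [div_le_div_iff₀ (by positivity) (by linarith)]
    have : (L : ℝ) + ρ + 2 ≤ (ρ + 1) * (2 + w) := by nlinarith
    nlinarith
  have e3 : 2 * (2 + w) / d + 1 / w = 4 / d + 3 / w := by
    rw [← hd]
    field_simp
    ring
  linarith

open Classical in
theorem main {J : Type} [Fintype J] {d n K : ℕ} (hd1 : 1 ≤ d)
    (a : J → Fin (d + 1) → ℝ) (c : J → ℝ) (ha : ∀ j, ∃ x y, a j x ≠ a j y)
    (hc : ∀ x : Fin (d + 1) → ℕ, ∑ i, x i + 1 = n →
      K < (univ.filter fun j => dot (a j) x = c j).card) :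
    ∃ A : ℕ, K < (d + 1) * A ∧ (d + 1) * (A * (A + 1) / 2) / ((d + 1) * A - K : ℝ) * n ≤
      (1 + 4 / d + min (4 * K / d ^ 2 : ℝ) (3 / √d)) * Fintype.card J := by
  have hdp : (1 : ℝ) ≤ d := by exact_mod_cast hd1
  obtain ⟨M, κ, hκ, hK⟩ : ∃ M κ : ℕ, κ < d + 1 ∧ 2 * K = (d + 1) * M + κ :=
    ⟨2 * K / (d + 1), 2 * K % (d + 1), Nat.mod_lt _ (by omega), (Nat.div_add_mod _ _).symm⟩
  obtain ⟨L, ρ, hL, hρ⟩ := level (K := K) (M := M) hd1 (by omega)
  have hL' : (M : ℝ) = L + ρ := by exact_mod_cast hL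
  have hb : (d + 1) / 2 * L + (κ + 1) / 2 + (d - (d + 1) / 2) * ρ ≤ K := by
    have b1 : (d - (d + 1) / 2) * ρ ≤ (d + 1) / 2 * ρ := Nat.mul_le_mul_right _ (by omega)
    have b2 : (d + 1) / 2 * M = (d + 1) / 2 * L + (d + 1) / 2 * ρ := by rw [hL, mul_add]
    have b3 : (d + 1) * M = 2 * ((d + 1) / 2 * M) + (d + 1) % 2 * M := by
      conv_lhs => rw [← Nat.div_add_mod (d + 1) 2]
      ring
    rcases Nat.mod_two_eq_zero_or_one (d + 1) with h | h <;> rw [h] at b3 <;> omega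
  have h := count (L := L) (ρ := ρ) hd1 a c ha hc (by omega) hb
  have hK' : (2 * K : ℝ) = (d + 1) * M + κ := by exact_mod_cast hK
  have hκ' : (κ : ℝ) ≤ d + 1 := by exact_mod_cast hκ.le
  have hκ0 : (0 : ℝ) ≤ κ := Nat.cast_nonneg _
  have hM0 : (0 : ℝ) ≤ M := Nat.cast_nonneg _
  have hθ : (κ : ℝ) / (d + 1) ≤ ((κ + 1) / 2 : ℕ) / ((d + 1) / 2 : ℕ) := by
    have t1 : (0 : ℝ) < ((d + 1) / 2 : ℕ) := by exact_mod_cast (by omega : 0 < (d + 1) / 2)
    have t2 : (2 * ((d + 1) / 2 : ℕ) : ℝ) ≤ d + 1 := by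
      exact_mod_cast (by omega : 2 * ((d + 1) / 2) ≤ d + 1)
    have t3 : (κ : ℝ) ≤ 2 * ((κ + 1) / 2 : ℕ) := by
      exact_mod_cast (by omega : κ ≤ 2 * ((κ + 1) / 2))
    rw [div_le_div_iff₀ (by linarith) t1]
    nlinarith
  have hθ1 : (κ : ℝ) / (d + 1) ≤ 1 := (div_le_one (by linarith)).2 hκ'
  have hnum := numeric (d := d) (ρ := ρ) (L := L) (by linarith) (Nat.cast_nonneg _)
    (by positivity) hθ hθ1 (Nat.cast_nonneg _)
  refine ⟨M + 1, by nlinarith, ?_⟩
  have hF : (d + 1) * ((M + 1 : ℕ) * ((M + 1 : ℕ) + 1) / 2) / ((d + 1) * (M + 1 : ℕ) - K : ℝ) =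
      (L + ρ + 1) * (L + ρ + 2) / (L + ρ + 2 - κ / (d + 1)) := by
    rw [← hL']
    push_cast
    have t1 : (d + 1) * (M + 1) - K = (d + 1) * (M + 2 - κ / (d + 1) : ℝ) / 2 := by
      field_simp
      linarith
    have t2 : (M + 2 - κ / (d + 1) : ℝ) ≠ 0 := by linarith
    rw [t1]
    field_simp
    ring
  rw [hF]
  refine (mul_le_mul_of_nonneg_left h (div_nonneg (by positivity) (by linarith))).trans ?_
  rw [mul_left_comm, mul_comm]
  exact mul_le_mul_of_nonneg_right (by linarith) (Nat.cast_nonneg _)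

end Pool.Agent.MP_0ea322_co.h46
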