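import Pool.Agent.MP_0ea322_co.h46.Defs
import Pool.Agent.MP_0ea322_co.h46.Main

/-!
The fractional cover by hyperplanes parallel to the facets, and the final bound.
-/

namespace Pool.Agent.MP_0ea322_co.h46

open Finset

variable {d : ℕ}

/-- The hyperplanes parallel to the facets of `T_d(k)`. -/
def std (k : ℕ) (i : Fin (d + 1)) (s : ℕ) : Set (Fin d → ℝ) :=
  {x | (Fin.cons (k - 1 - ∑ j, x j) x : Fin (d + 1) → ℝ) i = s}

lemma std_hyp (hd : 1 ≤ d) (k : ℕ) (i : Fin (d + 1)) (s : ℕ) : IsHyperplane (std k i s) := by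
  refine Fin.cases ?_ (fun j => ?_) i
  · refine ⟨fun _ => 1, k - 1 - s, fun h => one_ne_zero (congrFun h ⟨0, hd⟩), ?_⟩
    ext x
    simp only [std, Fin.cons_zero, Set.mem_ofPred_eq, one_mul]
    constructor <;> intro h <;> linarith
  · refine ⟨Pi.single j 1, s, by simp, ?_⟩
    ext x
    simp [std, Pi.single_apply]

lemma mem_std {k : ℕ} {x : Fin d → ℝ} (hx : x ∈ grid d k) :
    ∃ q : Fin (d + 1) → ℕ, ∑ i, q i + 1 = k ∧ ∀ i, x ∈ std k i (q i) := by
  obtain ⟨p, hp, rfl⟩ := hx
  obtain ⟨e, rfl⟩ := Nat.exists_eq_add_of_le hp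
  refine ⟨Fin.cons e p, by rw [Fin.sum_univ_succ]; simp; omega, fun i => ?_⟩
  refine Fin.cases ?_ (fun j => ?_) i <;> simp [std]
  ring

lemma fstar_le (hd : 1 ≤ d) {k A : ℕ} (h : k ≤ (d + 1) * A) :
    fstar k d ≤ (d + 1) * (A * (A + 1) / 2) / ((d + 1) * A + 1 - k) := by
  classical
  have hD : (0 : ℝ) < (d + 1) * A + 1 - k := by
    have : (k : ℝ) ≤ (d + 1) * A := by exact_mod_cast h
    linarith
  let c : ℕ → ℝ := fun s => (A - s : ℕ) / ((d + 1) * A + 1 - k)
  have hc : ∀ s, 0 ≤ c s := fun s => by positivity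
  let w : Set (Fin d → ℝ) →₀ ℝ := ∑ i, ∑ s ∈ range A, Finsupp.single (std k i s) (c s)
  have hsum : ∀ P : Set (Fin d → ℝ) → Prop, ∑ H ∈ w.support with P H, w H =
      ∑ i, ∑ s ∈ range A, if P (std k i s) then c s else 0 := by
    intro P
    rw [sum_filter]
    change w.sum (fun H t => if P H then t else 0) = _
    have h0 : ∀ H, (if P H then (0 : ℝ) else 0) = 0 := fun H => ite_self 0
    have h1 : ∀ H (a b : ℝ), (if P H then a + b else 0) =
        (if P H then a else 0) + if P H then b else 0 := fun H a b => by split_ifs <;> simp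
    rw [← Finsupp.sum_finsetSum_index (h := fun H t => if P H then t else 0) h0 h1]
    refine sum_congr rfl fun i _ => ?_
    rw [← Finsupp.sum_finsetSum_index (h := fun H t => if P H then t else 0) h0 h1]
    exact sum_congr rfl fun s _ => Finsupp.sum_single_index (h0 _)
  refine csInf_le ⟨0, ?_⟩ ⟨w, ⟨fun H => ?_, fun H hH => ?_, fun x hx => ?_⟩, ?_⟩
  · rintro t ⟨w, hw, rfl⟩
    exact sum_nonneg fun H _ => hw.1 H
  · simp only [w, Finsupp.finsetSum_apply]
    exact sum_nonneg fun i _ => sum_nonneg fun s _ => Finsupp.single_nonneg.2 (hc s) H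
  · obtain ⟨i, _, hi⟩ := mem_biUnion.1 (Finsupp.support_finsetSum hH)
    obtain ⟨s, _, hs⟩ := mem_biUnion.1 (Finsupp.support_finsetSum hi)
    rw [mem_singleton.1 (Finsupp.support_single_subset hs)]
    exact std_hyp hd k i s
  · obtain ⟨q, hq, hx⟩ := mem_std hx
    have h1 : ∀ i, ((A : ℝ) - q i) / ((d + 1) * A + 1 - k) ≤
        ∑ s ∈ range A, if x ∈ std k i s then c s else 0 := by
      intro i
      have h2 : ∀ s ∈ range A, 0 ≤ if x ∈ std k i s then c s else 0 := fun s _ => by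
        split_ifs
        exacts [hc s, le_rfl]
      rcases lt_or_ge (q i) A with h3 | h3
      · refine le_trans ?_ (single_le_sum h2 (mem_range.2 h3))
        simp [hx i, c, h3.le]
      · refine le_trans (div_nonpos_of_nonpos_of_nonneg ?_ hD.le) (sum_nonneg h2)
        exact sub_nonpos.2 (by exact_mod_cast h3)
    refine le_trans ?_ ((sum_le_sum fun i _ => h1 i).trans_eq (by convert (hsum (x ∈ ·)).symm))
    rw [← sum_div, le_div_iff₀ hD, sum_sub_distrib, ← hq]
    simp only [sum_const, card_univ, Fintype.card_fin, nsmul_eq_mul]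
    push_cast
    linarith
  · have h1 := hsum fun _ => True
    simp only [filter_true, if_true] at h1
    have h2 : ∀ B : ℕ, ∑ s ∈ range B, ((s + 1 : ℕ) : ℝ) = B * (B + 1) / 2 := by
      intro B
      induction B with
      | zero => simp
      | succ B ih =>
        rw [sum_range_succ, ih]
        push_cast
        ring
    have h3 : ∑ s ∈ range A, ((A - s : ℕ) : ℝ) = A * (A + 1) / 2 := by
      rw [← h2, ← sum_range_reflect]
      refine sum_congr rfl fun s hs => ?_
      have := mem_range.1 hs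
      congr 1
      omega
    rw [h1]
    simp only [c, ← sum_div, h3, sum_const, card_univ, Fintype.card_fin, nsmul_eq_mul]
    push_cast
    ring

lemma exists_cover (hd : 1 ≤ d) (n k : ℕ) : ∃ C, IsCover n d k C := by
  classical
  refine ⟨k • (range n).val.map (std n 0), fun H hH => ?_, fun x hx => ?_⟩
  · obtain ⟨s, _, rfl⟩ := Multiset.mem_map.1 (Multiset.mem_of_mem_nsmul hH)
    exact std_hyp hd _ _ _
  · obtain ⟨q, hq, hx⟩ := mem_std hx
    rw [Multiset.countP_nsmul]
    refine Nat.le_mul_of_pos_right _ (Multiset.countP_pos.2 ⟨_, ?_, hx 0⟩)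
    have := single_le_sum (f := q) (fun _ _ => Nat.zero_le _) (mem_univ 0)
    exact Multiset.mem_map_of_mem _ (mem_range.2 (by omega))

open Classical in
/-- A least cover in homogeneous coordinates. -/
lemma homog (hd : 1 ≤ d) (n K : ℕ) : ∃ (J : Type) (_ : Fintype J) (a : J → Fin (d + 1) → ℝ)
    (c : J → ℝ), Fintype.card J = f n d (K + 1) ∧ (∀ j, ∃ x y, a j x ≠ a j y) ∧
      ∀ x : Fin (d + 1) → ℕ, ∑ i, x i + 1 = n →
        K < (univ.filter fun j => dot (a j) x = c j).card := by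
  obtain ⟨C, ⟨hC, hcov⟩, hcard⟩ :
      f n d (K + 1) ∈ {N | ∃ C, IsCover n d (K + 1) C ∧ C.card = N} :=
    Nat.sInf_mem (let ⟨C, h⟩ := exists_cover hd n (K + 1); ⟨_, C, h, rfl⟩)
  choose a c ha hH using fun j : C.ToType => hC j Multiset.coe_mem
  refine ⟨C.ToType, inferInstance, fun j => Fin.cons 0 (a j), c, by rw [Multiset.card_coe, hcard],
    fun j => ?_, fun x hx => ?_⟩
  · obtain ⟨i, hi⟩ := Function.ne_iff.1 (ha j)
    exact ⟨i.succ, 0, by simpa using hi⟩
  · have h1 := hcov (fun i => x i.succ) ⟨fun i => x i.succ, by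
      rw [Fin.sum_univ_succ] at hx
      dsimp only
      omega, rfl⟩
    rw [← C.map_univ_coe, Multiset.countP_map] at h1
    refine Nat.lt_of_succ_le (h1.trans (le_of_eq ?_))
    rw [card_def, filter_val]
    congr 1
    refine Multiset.filter_congr fun j _ => ?_
    rw [hH j]
    simp [dot, Fin.sum_univ_succ]

lemma fstar_le' (hd : 1 ≤ d) {K A : ℕ} (h : K < (d + 1) * A) :
    fstar (K + 1) d ≤ (d + 1) * (A * (A + 1) / 2) / ((d + 1) * A - K) := by
  refine (fstar_le hd h).trans_eq ?_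
  push_cast
  congr 1
  ring

theorem final (n d k : ℕ) (hd : 1 ≤ d) (hk : 1 ≤ k) :
    fstar k d * n ≤ (1 + 4 / d + min (4 * (k - 1) / d ^ 2 : ℝ) (3 / √d)) * f n d k := by
  obtain ⟨K, rfl⟩ := Nat.exists_eq_add_of_le' hk
  obtain ⟨J, _, a, c, hJ, ha, hc⟩ := homog hd n K
  obtain ⟨A, hA, h⟩ := main hd a c ha hc
  rw [hJ] at h
  rw [Nat.cast_add, Nat.cast_one, add_sub_cancel_right]
  exact (mul_le_mul_of_nonneg_right (fstar_le' hd hA) (Nat.cast_nonneg n)).trans h

end Pool.Agent.MP_0ea322_co.h46
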