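import Pool.Agent.MP_0ea322_co.h46.Gain
import Pool.Agent.MP_0ea322_co.h46.Frac

/-!
The exact bound away from ties.
-/

namespace Pool.Agent.MP_0ea322_co.h46

open Finset Equiv

/-- The matching of the first `2 m` positions. -/
def mt (d m : ℕ) (x : Fin (d + 1)) : Fin (d + 1) :=
  if x.val < 2 * m then pos d (if x.val % 2 = 0 then x.val + 1 else x.val - 1) else x

variable {d m : ℕ}

lemma mt_val (h : 2 * m ≤ d + 1) (x : Fin (d + 1)) : (mt d m x).val =
    if x.val < 2 * m then (if x.val % 2 = 0 then x.val + 1 else x.val - 1) else x.val := by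
  simp only [mt, pos]
  split_ifs <;> simp only <;> omega

lemma mt_mt (h : 2 * m ≤ d + 1) (x : Fin (d + 1)) : mt d m (mt d m x) = x := by
  apply Fin.ext
  rw [mt_val h, mt_val h]
  split_ifs <;> omega

lemma mt_fix (h : 2 * m ≤ d + 1) (x : Fin (d + 1)) : mt d m x = x ↔ ¬ x.val < 2 * m := by
  rw [Fin.ext_iff, mt_val h]
  split_ifs <;> omega

lemma mt_card (h : 2 * m ≤ d + 1) : (univ.filter fun x => mt d m x ≠ x).card = 2 * m ∧
    (univ.filter fun x => mt d m x = x).card + 2 * m = d + 1 := by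
  have h1 : (univ.filter fun x => mt d m x ≠ x).card = 2 * m := by
    simp only [ne_eq, mt_fix h, not_not]
    rw [Fin.card_filter_val_lt, min_eq_right h]
  have := card_filter_add_card_filter_not (s := univ) fun x => mt d m x = x
  rw [h1, card_univ, Fintype.card_fin] at this
  exact ⟨h1, this⟩

lemma mt_idx (h : 2 * m ≤ d + 1) (x : Fin (d + 1)) (hx : mt d m x ≠ x) :
    x.val / 2 < m ∧ (pos d (2 * (x.val / 2)) = x ∨ pos d (2 * (x.val / 2)) = mt d m x) := by
  rw [ne_eq, mt_fix h, not_not] at hx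
  simp only [Fin.ext_iff, mt_val h, pos, if_pos hx]
  split_ifs <;> omega

open Classical in
theorem exact_count {J : Type} [Fintype J] (a : J → Fin (d + 1) → ℝ) (c : J → ℝ)
    (ha : ∀ j, ∃ x y, a j x ≠ a j y) {n K L u v : ℕ}
    (hc : ∀ x : Fin (d + 1) → ℕ, ∑ i, x i + 1 = n →
      K < (univ.filter fun j => dot (a j) x = c j).card)
    (hd : d = u + v + 6) (hK : 2 * K = (d + 1) * L + (u + 3))
    (hL : (d + 1) * (L * (L + 2)) ≤ u * v) :
    (n : ℝ) * ((L + 1) * (L + 2)) ≤ (L + 2 - (u + 3) / (d + 1)) * Fintype.card J := by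
  have ht : ((u + 3) / (d + 1) : ℝ) * Fintype.card (Fin (d + 1)) = (u + 3 : ℕ) := by
    rw [Fintype.card_fin]
    push_cast
    exact div_mul_cancel₀ _ (by positivity)
  rcases Nat.even_or_odd' (d + 1) with ⟨M, hM | hM⟩
  · obtain ⟨m, rfl⟩ : ∃ m, M = m + 2 := ⟨M - 2, by omega⟩
    have h : 2 * (m + 2) ≤ d + 1 := hM.ge
    have hz : ∀ x, mt d (m + 2) x ≠ x := fun x => by
      have := x.2
      rw [ne_eq, mt_fix h]
      omega
    rw [hM, mul_assoc] at hK hL
    obtain ⟨s, hs⟩ : ∃ s, u + 3 = 2 * s := ⟨(u + 3) / 2, by omega⟩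
    obtain ⟨r, hr⟩ : ∃ r, m + 2 = s + r := ⟨m + 2 - s, by omega⟩
    refine core a c ha hc (mt_mt h) (mt_card h).1 (fun x hx => absurd hx (hz x))
      (by have := (mt_card h).2; omega) (fun r => pos d (2 * r)) (fun x => x.val / 2) (mt_idx h)
      False (s := s) (l := L) (R := 0) (Or.inr ⟨id, rfl⟩) (fun σ P w R' hG => ?_) (by omega)
      (by omega) ?_ (by rw [ht, hs]; simp)
    · have e : (fun j => P j ∨ ¬ Tg (mt d (m + 2)) (a j) σ) = P := by
        funext j
        have : Tg (mt d (m + 2)) (a j) σ := fun x _ hx => absurd hx (hz x)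
        simp [this]
      simpa [e] using hG
    · rw [show m + 2 - s = r by omega]
      have e1 : 2 * r = v + 4 := by omega
      nlinarith
  obtain ⟨m, rfl⟩ : ∃ m, M = m + 3 := ⟨M - 3, by omega⟩
  have h : 2 * (m + 2) ≤ d + 1 := by omega
  have hz : (univ.filter fun x => mt d (m + 2) x = x).card = 3 := by
    have := (mt_card h).2
    omega
  have hZ : ∀ x, mt d (m + 2) x = x → ∃ y, y ≠ x ∧ mt d (m + 2) y = y := fun x _ => by
    obtain ⟨y, h1, h2⟩ := exists_mem_ne (s := univ.filter fun x => mt d (m + 2) x = x) (by omega) x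
    exact ⟨y, h2, (mem_filter.1 h1).2⟩
  have htri : ∀ (l : ℕ) (σ : Perm (Fin (d + 1))) P w R', Good a c P w R' →
      Good a c (fun j => P j ∨ ¬ Tg (mt d (m + 2)) (a j) σ)
        (w + (num (fun j => P j ∨ ¬ Tg (mt d (m + 2)) (a j) σ) - num P) / ((2 * l : ℕ) + 1))
        (R' + 3 * l) := by
    intro l σ P w R' hG
    obtain ⟨x, y, z, hxy, -, -, hs⟩ := card_eq_three.1 hz
    have hs' : ∀ p, mt d (m + 2) p = p ↔ p = x ∨ p = y ∨ p = z := fun p => by
      simpa using Finset.ext_iff.1 hs p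
    have e : (fun j => P j ∨ ¬ Tg (mt d (m + 2)) (a j) σ) =
        fun j => P j ∨ (a j (σ x) ≠ a j (σ y) ∨ a j (σ x) ≠ a j (σ z)) := by
      funext j
      congr 1
      simp only [Tg, hs', eq_iff_iff, ne_eq, ← not_and_or, not_iff_not]
      constructor
      · exact fun h => ⟨h x y (by simp) (by simp), h x z (by simp) (by simp)⟩
      · rintro ⟨h1, h2⟩ p q (rfl | rfl | rfl) (rfl | rfl | rfl) <;> simp only [← h1, ← h2]
    rw [e]
    push_cast
    exact hG.triple (σ z) (σ.injective.ne hxy) l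
  have hD : (d + 1) * L = 2 * ((m + 2) * L) + 3 * L := by
    rw [hM]
    ring
  have hL' : 2 * ((m + 2) * (L * (L + 2))) ≤ u * v := by
    refine le_trans ?_ hL
    rw [← mul_assoc]
    exact Nat.mul_le_mul_right _ h
  rcases Nat.even_or_odd' L with ⟨l, hl | hl⟩
  · obtain ⟨s, hs⟩ : ∃ s, u + 3 = 2 * s := ⟨(u + 3) / 2, by omega⟩
    obtain ⟨r, hr⟩ : ∃ r, m + 2 = s + r := ⟨m + 2 - s, by omega⟩
    refine core a c ha hc (mt_mt h) (mt_card h).1 hZ (by omega) (fun r => pos d (2 * r))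
      (fun x => x.val / 2) (mt_idx h) False (s := s) (Or.inr ⟨id, hl.symm⟩) (htri l) (by omega)
      (by omega) ?_ (by rw [ht, hs]; simp)
    rw [show m + 2 - s = r by omega]
    have e1 : 2 * r = v + 1 := by omega
    nlinarith
  · obtain ⟨s, hs⟩ : ∃ s, u = 2 * s := ⟨u / 2, by omega⟩
    obtain ⟨r, hr⟩ : ∃ r, m + 2 = s + r := ⟨m + 2 - s, by omega⟩
    refine core a c ha hc (mt_mt h) (mt_card h).1 hZ (by omega) (fun r => pos d (2 * r))
      (fun x => x.val / 2) (mt_idx h) True (s := s) (Or.inl ⟨trivial, by omega⟩) (htri (l + 1))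
      (by omega) (by omega) ?_ (by rw [ht, hs, hz]; simp)
    rw [show m + 2 - s = r by omega]
    have e1 : 2 * r = v + 4 := by omega
    nlinarith

theorem exact_range (n d k L c : ℕ) (hk : 2 * k = (d + 1) * L + c + 2) (h3 : 3 ≤ c)
    (hc : c + 3 ≤ d) (hL : (d + 1) * (L * (L + 2)) ≤ (c - 3) * (d - 3 - c)) :
    fstar k d * n ≤ f n d k := by
  obtain ⟨K, rfl⟩ : ∃ K, k = K + 1 := ⟨k - 1, by omega⟩
  obtain ⟨u, rfl⟩ : ∃ u, c = u + 3 := ⟨c - 3, by omega⟩
  have hd : 1 ≤ d := by omega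
  obtain ⟨J, _, a, c, hJ, ha, hc'⟩ := homog hd n K
  have hK : 2 * K = (d + 1) * L + (u + 3) := by omega
  have h := exact_count (v := d - 3 - (u + 3)) a c ha hc' (by omega) hK hL
  rw [hJ] at h
  have hK' : (2 * K : ℝ) = (d + 1) * L + (u + 3) := by exact_mod_cast hK
  have hu : ((u + 3) / (d + 1) : ℝ) ≤ 1 :=
    (div_le_one (by positivity)).2 (by exact_mod_cast (by omega : u + 3 ≤ d + 1))
  have hp : (0 : ℝ) < L + 2 - (u + 3) / (d + 1) := by linarith [Nat.cast_nonneg (α := ℝ) L]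
  refine (mul_le_mul_of_nonneg_right (fstar_le' (A := L + 1) hd (by nlinarith))
    (Nat.cast_nonneg n)).trans ?_
  have t1 : (d + 1) * ((L + 1 : ℕ) : ℝ) - K = (d + 1) * (L + 2 - (u + 3) / (d + 1) : ℝ) / 2 := by
    push_cast
    field_simp
    linarith
  rw [t1, div_mul_eq_mul_div, div_le_iff₀ (by positivity)]
  push_cast
  nlinarith [mul_le_mul_of_nonneg_left h (by positivity : (0 : ℝ) ≤ d + 1)]

end Pool.Agent.MP_0ea322_co.h46
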