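import Pool.Agent.MP_0ea322_co.h46.Sw2

/-!
Averaging over relabellings and over the set of pairs with the higher level.
-/

namespace Pool.Agent.MP_0ea322_co.h46

open Finset Equiv

variable {ι : Type} [Fintype ι] [DecidableEq ι] {π : ι → ι}

open Classical in
/-- Lower bound for the chance of being decided at the higher level. -/
noncomputable def wt (π : ι → ι) (a : ι → ℝ) (hi : Prop) (θ γ : ℝ) (σ : Perm ι) : ℝ :=
  if hi ∧ ¬ Tg π a σ then 1 else if Inv π a σ then 0 else θ + if Two π a σ then γ else 0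

open Classical in
lemma gain {a : ι → ℝ} (hπ : ∀ x, π (π x) = x) (ha : ∃ x y, a x ≠ a y) {m : ℕ}
    (hm : (univ.filter fun x => π x ≠ x).card = 2 * m) (hZ : ∀ x, π x = x → ∃ y, y ≠ x ∧ π y = y)
    (hZ' : (univ.filter fun x => π x = x).card < 2 * m) (hi : Prop) {θ γ Λ t : ℝ} (h0 : 0 ≤ θ)
    (h1 : θ ≤ 1) (hγ : 0 ≤ γ) (hΛ : 0 ≤ Λ) (h2 : θ + Λ ≤ γ * (2 * m - 2)) (h3 : Λ ≤ θ * (2 * m))
    (h4 : θ + Λ ≤ (1 - θ) * (2 * m - 1))
    (ht : t * Fintype.card ι ≤ θ * (2 * m) + if hi then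
      ((univ.filter fun x => π x = x).card : ℝ) else 0) :
    ∑ _σ : Perm ι, t ≤ ∑ σ, (wt π a hi θ γ σ - Λ * if Inv π a σ ∧ Tg π a σ then 1 else 0) := by
  obtain ⟨H, e1, e2, e3⟩ := fixed_est ha hZ (hm ▸ hZ')
  have hD : (Fintype.card ι : ℝ) = (univ.filter fun x => π x = x).card + 2 * m := by
    have := card_filter_add_card_filter_not (s := univ) fun x => π x = x
    rw [hm, card_univ] at this
    exact_mod_cast this.symm
  have hD0 : (0 : ℝ) < Fintype.card ι := by
    obtain ⟨x, -⟩ := ha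
    exact_mod_cast Fintype.card_pos_iff.2 ⟨x⟩
  have two : ∀ σ, Two π a σ → ¬ Inv π a σ := fun σ ⟨x, _, h, _⟩ h' => h (h' x)
  rw [hm] at e2 e3
  push_cast at e2 e3
  generalize ((univ.filter fun x => π x = x).card : ℝ) = z at *
  have hN : (0 : ℝ) ≤ Fintype.card (Perm ι) := Nat.cast_nonneg _
  have hF := num_nonneg fun σ => ¬ Out π a σ ∧ Tg π a σ
  rw [sum_const, card_univ, nsmul_eq_mul]
  by_cases h : hi
  · have s1 := switch (a := a) hπ hm (Tg π a) fun σ p q hp hq h x y hx hy => by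
      have e : ∀ w, π w = w → swap p q w = w := fun w hw =>
        swap_apply_of_ne_of_ne (by rintro rfl; exact hp hw) (by rintro rfl; exact hq hw)
      rw [Perm.mul_apply, Perm.mul_apply, e x hx, e y hy]
      exact h x y hx hy
    have s2 : θ * Fintype.card (Perm ι) + (1 - θ) * num (fun σ => ¬ Tg π a σ) +
        γ * num (fun σ => Two π a σ ∧ Tg π a σ) -
        (θ + Λ) * num (fun σ => (Inv π a σ ∧ Out π a σ) ∧ Tg π a σ) -
        (θ + Λ) * num (fun σ => ¬ Out π a σ ∧ Tg π a σ) ≤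
        ∑ σ, (wt π a hi θ γ σ - Λ * if Inv π a σ ∧ Tg π a σ then 1 else 0) := by
      rw [← card_univ, mul_comm θ, ← nsmul_eq_mul, ← sum_const]
      simp only [num_eq, mul_sum, ← sum_add_distrib, ← sum_sub_distrib]
      refine sum_le_sum fun σ _ => ?_
      have := two σ
      by_cases c1 : Tg π a σ <;> by_cases c2 : Inv π a σ <;> by_cases c3 : Out π a σ <;>
        by_cases c4 : Two π a σ <;> simp [wt, h, c1, c2, c3, c4] at this ⊢ <;> linarith
    refine le_trans ?_ s2
    rw [if_pos h] at ht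
    have s3 := mul_le_mul_of_nonneg_left s1 hγ
    have s4 := mul_le_mul_of_nonneg_right h2
      (num_nonneg fun σ => (Inv π a σ ∧ Out π a σ) ∧ Tg π a σ)
    have s5 := mul_le_mul_of_nonneg_left e3 (sub_nonneg.2 h1)
    have s6 := mul_le_mul_of_nonneg_right h4 hF
    have s7 : Fintype.card (Perm ι) * t ≤ θ * Fintype.card (Perm ι) + (1 - θ) * H := by
      refine le_of_mul_le_mul_right ?_ hD0
      have := mul_le_mul_of_nonneg_left ht hN
      rw [add_mul, mul_assoc (1 - θ), e1, mul_assoc]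
      refine this.trans (le_of_eq ?_)
      rw [hD]
      ring
    nlinarith
  · have s1 := switch (a := a) hπ hm (fun _ => True) fun _ _ _ _ _ h => h
    have s2 : θ * Fintype.card (Perm ι) + γ * num (fun σ => Two π a σ ∧ True) -
        (θ + Λ) * num (fun σ => (Inv π a σ ∧ Out π a σ) ∧ True) -
        θ * num (fun σ => ¬ Out π a σ) - Λ * num (fun σ => ¬ Out π a σ ∧ Tg π a σ) ≤
        ∑ σ, (wt π a hi θ γ σ - Λ * if Inv π a σ ∧ Tg π a σ then 1 else 0) := by
      rw [← card_univ, mul_comm θ, ← nsmul_eq_mul, ← sum_const]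
      simp only [num_eq, mul_sum, ← sum_add_distrib, ← sum_sub_distrib]
      refine sum_le_sum fun σ _ => ?_
      have := two σ
      by_cases c1 : Tg π a σ <;> by_cases c2 : Inv π a σ <;> by_cases c3 : Out π a σ <;>
        by_cases c4 : Two π a σ <;> simp [wt, h, c1, c2, c3, c4] at this ⊢ <;> linarith
    refine le_trans ?_ s2
    rw [if_neg h] at ht
    have s3 := mul_le_mul_of_nonneg_left s1 hγ
    have s4 := mul_le_mul_of_nonneg_right h2
      (num_nonneg fun σ => (Inv π a σ ∧ Out π a σ) ∧ True)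
    have s5 := mul_le_mul_of_nonneg_left e2 h0
    have s6 := mul_le_mul_of_nonneg_right h3 hF
    have s7 : Fintype.card (Perm ι) * t ≤ θ * Fintype.card (Perm ι) - θ * H := by
      refine le_of_mul_le_mul_right ?_ hD0
      have := mul_le_mul_of_nonneg_left ht hN
      rw [sub_mul, mul_assoc θ H, e1, mul_assoc]
      refine this.trans (le_of_eq ?_)
      rw [hD]
      ring
    nlinarith

open Classical in
lemma pickS {J : Type} [Fintype J] {m s : ℕ} (hs : s ≤ m) (w : J → ℝ) (Pre : J → Prop)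
    (B : J → Finset ℕ) (hB : ∀ j, B j ⊆ range m) (h1 : ∀ j, w j ≤ 1)
    (h2 : ∀ j, ¬ Pre j → w j * m.choose s ≤ m.choose s - (m - (B j).card).choose s) :
    ∃ S ⊆ range m, S.card = s ∧ ∑ j, w j ≤ num fun j => (∃ t ∈ S, t ∈ B j) ∨ Pre j := by
  have h : ∑ _S ∈ powersetCard s (range m), ∑ j, w j ≤
      ∑ S ∈ powersetCard s (range m), num fun j => (∃ t ∈ S, t ∈ B j) ∨ Pre j := by
    simp only [num_eq]
    rw [sum_comm, sum_comm (s := powersetCard s (range m))]
    refine sum_le_sum fun j _ => ?_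
    rw [sum_const, card_powersetCard, card_range, nsmul_eq_mul, mul_comm]
    by_cases hj : Pre j
    · simp only [hj, or_true, if_true, sum_const, card_powersetCard, card_range, nsmul_eq_mul,
        mul_one]
      exact mul_le_of_le_one_left (Nat.cast_nonneg _) (h1 j)
    refine (h2 j hj).trans (le_of_eq ?_)
    simp only [hj, or_false, sum_boole]
    have e := card_filter_add_card_filter_not (s := powersetCard s (range m))
      fun S => ∃ t ∈ S, t ∈ B j
    have e2 : (powersetCard s (range m)).filter (fun S => ¬ ∃ t ∈ S, t ∈ B j) =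
        powersetCard s (range m \ B j) := by
      ext S
      simp only [mem_filter, mem_powersetCard, subset_sdiff, disjoint_left, not_exists, not_and]
      tauto
    rw [e2, card_powersetCard, card_powersetCard, card_sdiff_of_subset (hB j), card_range] at e
    rw [sub_eq_iff_eq_add, ← e]
    push_cast
    congr
  obtain ⟨S, hS, h⟩ := exists_le_of_sum_le (powersetCard_nonempty.2 (by simpa using hs)) h
  exact ⟨S, (mem_powersetCard.1 hS).1, (mem_powersetCard.1 hS).2, h⟩

lemma choose_one {m s b : ℕ} (hs : s ≤ m) (hb : 1 ≤ b) :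
    (s : ℝ) / (m + 1) * (m + 1).choose s ≤ (m + 1).choose s - (m + 1 - b).choose s := by
  have e1 : ((m + 1 - b).choose s : ℝ) ≤ m.choose s := by
    exact_mod_cast Nat.choose_le_choose s (by omega)
  have e2 : (m.choose s : ℝ) * (m + 1) = (m + 1).choose s * (m + 1 - s) := by
    have := congrArg (Nat.cast (R := ℝ)) (Nat.choose_mul_succ_eq m s)
    rwa [Nat.cast_mul, Nat.cast_mul, Nat.cast_sub (by omega), Nat.cast_succ] at this
  rw [div_mul_eq_mul_div, div_le_iff₀ (by positivity)]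
  nlinarith [Nat.cast_nonneg (α := ℝ) m]

lemma choose_two {m s b : ℕ} (hs : s ≤ m + 1) (hb : 2 ≤ b) :
    ((s : ℝ) / (m + 2) + s * (m + 2 - s) / ((m + 2) * (m + 1))) * (m + 2).choose s ≤
      (m + 2).choose s - (m + 2 - b).choose s := by
  have e1 : ((m + 2 - b).choose s : ℝ) ≤ m.choose s := by
    exact_mod_cast Nat.choose_le_choose s (by omega)
  have e2 : (m.choose s : ℝ) * (m + 1) = (m + 1).choose s * (m + 1 - s) := by
    have := congrArg (Nat.cast (R := ℝ)) (Nat.choose_mul_succ_eq m s)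
    rwa [Nat.cast_mul, Nat.cast_mul, Nat.cast_sub (by omega), Nat.cast_succ] at this
  have e3 : ((m + 1).choose s : ℝ) * (m + 2) = (m + 2).choose s * (m + 2 - s) := by
    have := congrArg (Nat.cast (R := ℝ)) (Nat.choose_mul_succ_eq (m + 1) s)
    rw [Nat.cast_mul, Nat.cast_mul, Nat.cast_sub (by omega)] at this
    push_cast at this
    linarith
  have e4 : (m.choose s : ℝ) =
      (m + 2).choose s * ((m + 2 - s) * (m + 1 - s) / ((m + 2) * (m + 1))) := by
    rw [← mul_div_assoc, eq_div_iff (by positivity)]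
    linear_combination (m + 2) * e2 + (m + 1 - s) * e3
  have e5 : (s : ℝ) / (m + 2) + s * (m + 2 - s) / ((m + 2) * (m + 1)) =
      1 - (m + 2 - s) * (m + 1 - s) / ((m + 2) * (m + 1)) := by
    field_simp
    ring
  rw [e5]
  linarith

open Classical in
theorem core {J : Type} [Fintype J] (a : J → ι → ℝ) (c : J → ℝ) (ha : ∀ j, ∃ x y, a j x ≠ a j y)
    {n K m s L l R : ℕ} (hc : ∀ x : ι → ℕ, ∑ i, x i + 1 = n →
      K < (univ.filter fun j => dot (a j) x = c j).card)
    (hπ : ∀ x, π (π x) = x) (hm : (univ.filter fun x => π x ≠ x).card = 2 * (m + 2))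
    (hZ : ∀ x, π x = x → ∃ y, y ≠ x ∧ π y = y)
    (hZ' : (univ.filter fun x => π x = x).card < 2 * (m + 2)) (u : ℕ → ι) (idx : ι → ℕ)
    (hu : ∀ x, π x ≠ x → idx x < m + 2 ∧ (u (idx x) = x ∨ u (idx x) = π x))
    (hi : Prop) (hl : hi ∧ l = L + 1 ∨ ¬ hi ∧ l = L)
    (htri : ∀ (σ : Perm ι) P w R', Good a c P w R' → Good a c (fun j => P j ∨ ¬ Tg π (a j) σ)
      (w + (num (fun j => P j ∨ ¬ Tg π (a j) σ) - num P) / (l + 1)) (R' + R))
    (hK : (m + 2) * L + s + R ≤ K) (hs : s ≤ m + 1)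
    (hL : (m + 2) * (L * (L + 2)) + s ≤ 2 * s * (m + 2 - s)) {t : ℝ}
    (ht : t * Fintype.card ι ≤ 2 * s + if hi then
      ((univ.filter fun x => π x = x).card : ℝ) else 0) :
    (n : ℝ) * ((L + 1) * (L + 2)) ≤ (L + 2 - t) * Fintype.card J := by
  have hM : (0 : ℝ) ≤ m := Nat.cast_nonneg _
  have hS : (0 : ℝ) ≤ s := Nat.cast_nonneg _
  have hL0 : (0 : ℝ) ≤ L := Nat.cast_nonneg _
  have hs' : (s : ℝ) ≤ m + 1 := by exact_mod_cast hs
  have hL' : (m + 2 : ℝ) * (L * (L + 2)) + s ≤ 2 * s * (m + 2 - s) := by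
    have := Nat.cast_le (α := ℝ) |>.2 hL
    rw [Nat.cast_mul (2 * s), Nat.cast_sub (by omega)] at this
    exact_mod_cast this
  set θ : ℝ := s / (m + 2) with hθ
  set γ : ℝ := s * (m + 2 - s) / ((m + 2) * (m + 1)) with hγ
  have θ0 : 0 ≤ θ := by positivity
  have θ2 : θ * (m + 2) = s := div_mul_cancel₀ _ (by positivity)
  have θ1 : θ ≤ 1 := (div_le_one (by positivity)).2 (by linarith)
  have γ0 : 0 ≤ γ := div_nonneg (mul_nonneg hS (by linarith)) (by positivity)
  have γ1 : γ * (m + 1) * (m + 2) = s * (m + 2 - s) := by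
    rw [hγ]
    field_simp
  have γ2 : θ + γ ≤ 1 := by
    refine le_of_mul_le_mul_right ?_ (by positivity : (0 : ℝ) < (m + 1) * (m + 2))
    nlinarith [mul_nonneg (sub_nonneg.2 hs') (by linarith : (0 : ℝ) ≤ m + 2 - s)]
  have hg : ∀ j, ∑ _σ : Perm ι, t ≤ ∑ σ, (wt π (a j) hi θ γ σ -
      L * (L + 2) * if Inv π (a j) σ ∧ Tg π (a j) σ then 1 else 0) := fun j => by
    refine gain hπ (ha j) hm hZ hZ' hi θ0 θ1 γ0 (by positivity) ?_ ?_ ?_ ?_ <;> push_cast
    · refine le_of_mul_le_mul_right ?_ (by positivity : (0 : ℝ) < m + 2)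
      nlinarith
    · refine le_of_mul_le_mul_right ?_ (by positivity : (0 : ℝ) < m + 2)
      nlinarith
    · refine le_of_mul_le_mul_right ?_ (by positivity : (0 : ℝ) < m + 2)
      nlinarith [mul_nonneg (sub_nonneg.2 hs') (by linarith : (0 : ℝ) ≤ m + 2 - s)]
    · linarith
  have h1 := sum_le_sum fun j (_ : j ∈ univ) => hg j
  rw [sum_comm, sum_comm (s := (univ : Finset J))] at h1
  obtain ⟨σ, -, hσ⟩ := exists_le_of_sum_le univ_nonempty h1
  let B : J → Finset ℕ := fun j =>
    (range (m + 2)).filter fun r => a j (σ (u r)) ≠ a j (σ (π (u r)))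
  have hB : ∀ j x, a j (σ (π x)) ≠ a j (σ x) → π x ≠ x ∧ idx x ∈ B j := by
    intro j x hx
    have e : π x ≠ x := fun e => hx (by rw [e])
    refine ⟨e, mem_filter.2 ⟨mem_range.2 (hu x e).1, ?_⟩⟩
    rcases (hu x e).2 with h | h <;> rw [h]
    · exact hx.symm
    · rwa [hπ]
  obtain ⟨S, hS1, hS2, hS3⟩ := pickS (m := m + 2) (s := s) (by omega)
    (fun j => wt π (a j) hi θ γ σ) (fun j => hi ∧ ¬ Tg π (a j) σ) B
    (fun j => filter_subset _ _) (fun j => by
      simp only [wt]
      split_ifs <;> linarith) (fun j hj => by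
      simp only [wt, if_neg hj]
      split_ifs with h2 h3
      · rw [zero_mul, sub_nonneg]
        exact_mod_cast Nat.choose_le_choose s (Nat.sub_le _ _)
      · obtain ⟨x, y, hx, hy, h4, h5⟩ := h3
        refine choose_two hs (one_lt_card.2 ⟨_, (hB j x hx).2, _, (hB j y hy).2, fun e => ?_⟩)
        have e1 := (hu x (hB j x hx).1).2
        have e2 := (hu y (hB j y hy).1).2
        rw [← e] at e2
        rcases e1 with e1 | e1 <;> rcases e2 with e2 | e2
        · exact h4 (e2.symm.trans e1)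
        · exact h5 (by rw [← e1, e2, hπ])
        · exact h5 (e2.symm.trans e1)
        · exact h4 (by rw [← hπ y, ← e2, e1, hπ])
      · obtain ⟨x, hx⟩ := not_forall.1 h2
        have := choose_one (m := m + 1) hs (card_pos.2 ⟨_, (hB j x hx).2⟩)
        rw [add_zero, hθ]
        push_cast at this
        rwa [add_assoc, one_add_one_eq_two] at this)
  have g1 := (htri σ _ _ _ ((good_zero a c).pairs (fun r => σ (u r)) (fun r => σ (π (u r)))
    (L + 1) S)).pairs (fun r => σ (u r)) (fun r => σ (π (u r))) L (range (m + 2) \ S)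
  obtain ⟨x₀, -⟩ := card_pos.1 (hm ▸ by omega : 0 < (univ.filter fun x => π x ≠ x).card)
  have g2 := g1.finish ha x₀ fun x hx => lt_of_le_of_lt (by
    rw [card_sdiff_of_subset hS1, card_range, hS2]
    obtain ⟨r, hr⟩ := Nat.exists_eq_add_of_le (by omega : s ≤ m + 2)
    rw [hr] at hK
    rw [hr, Nat.add_sub_cancel_left]
    nlinarith) (hc x hx)
  rw [num_zero (P := fun _ => False) fun _ => id] at g2
  have k0 : (∑ j, if Inv π (a j) σ ∧ Tg π (a j) σ then (1 : ℝ) else 0) =
      num fun j => Inv π (a j) σ ∧ Tg π (a j) σ := by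
    rw [num_eq]
    exact sum_congr rfl fun j _ => by congr
  rw [sum_sub_distrib, ← mul_sum, k0, sum_const, card_univ, nsmul_eq_mul] at hσ
  set P1 := fun j => False ∨ ∃ r ∈ S, a j (σ (u r)) ≠ a j (σ (π (u r))) with hP1
  set P2 := fun j => P1 j ∨ ¬ Tg π (a j) σ with hP2
  set P3 := fun j => P2 j ∨ ∃ r ∈ range (m + 2) \ S, a j (σ (u r)) ≠ a j (σ (π (u r))) with hP3
  have k1 : num (fun j => Inv π (a j) σ ∧ Tg π (a j) σ) + num P3 ≥ Fintype.card J := by
    simp only [num_eq, ← sum_add_distrib]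
    rw [← card_univ, ← mul_one (card univ : ℝ), ← nsmul_eq_mul, ← sum_const]
    refine sum_le_sum fun j _ => ?_
    by_cases h : P3 j
    · rw [if_pos h]
      split_ifs <;> norm_num
    · rw [if_neg h, if_pos, add_zero]
      refine ⟨fun x => by_contra fun hx => h ?_, by_contra fun h' => h (Or.inl (Or.inr h'))⟩
      obtain ⟨e1, e2⟩ := mem_filter.1 (hB j x hx).2
      by_cases e3 : idx x ∈ S
      · exact Or.inl (Or.inl (Or.inr ⟨_, e3, e2⟩))
      · exact Or.inr ⟨_, mem_sdiff.2 ⟨e1, e3⟩, e2⟩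
  have k2 := mul_le_mul_of_nonneg_left k1 (by positivity : (0 : ℝ) ≤ L * (L + 2))
  have k3 := mul_le_mul_of_nonneg_right g2 (by positivity : (0 : ℝ) ≤ (L + 1) * (L + 2))
  refine k3.trans ?_
  rcases hl with ⟨h, rfl⟩ | ⟨h, rfl⟩
  · have k4 := hS3.trans (num_mono (Q := P2) fun j hj => hj.elim
      (fun ⟨r, h1, h2⟩ => Or.inl (Or.inr ⟨r, h1, (mem_filter.1 h2).2⟩)) fun h => Or.inr h.2)
    push_cast
    field_simp
    nlinarith
  · have k4 := hS3.trans (num_mono (Q := P1) fun j hj => hj.elim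
      (fun ⟨r, h1, h2⟩ => Or.inr ⟨r, h1, (mem_filter.1 h2).2⟩) fun h' => absurd h'.1 h)
    push_cast
    field_simp
    nlinarith

end Pool.Agent.MP_0ea322_co.h46
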