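import Pool.Agent.MP_0ea322_co.h46.Tree
import Pool.Agent.MP_0ea322_co.Cert

/-!
Stagewise choice of a weakly covered point: pairs and one triple.
-/

namespace Pool.Agent.MP_0ea322_co.h46

open Finset

open Classical in
/-- The planar bound at a level divisible by three. -/
lemma plane_core {J : Type} (S : Finset J) (α β γ : J → ℝ) (h : ∀ j ∈ S, α j ≠ 0 ∨ β j ≠ 0)
    (l g : ℕ) (hg : S.card < (2 * l + 1) * (g + 1)) :
    ∃ t₁ t₂ : ℕ, t₁ + t₂ ≤ g ∧ (S.filter fun j => α j * t₁ + β j * t₂ = γ j).card ≤ 3 * l := by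
  by_contra hcov
  push Not at hcov
  obtain ⟨A, G, hA, -, hG, h0, hmarg, hpath, hY⟩ := exists_profile (Nat.succ_pos (3 * l))
  let ln : J → Set (Fin 3 → ℕ) := fun j => {p | p ∈ pts (g + 1) ∧ α j * p 0 + β j * p 1 = γ j}
  have hd : ∀ j, ∃ o : Option (Fin 3 × ℕ), j ∈ S → (o = none → Skew (ln j)) ∧
      ∀ i t, o = some (i, t) → t < g + 1 ∧ ∀ p ∈ ln j, p i = t := by
    intro j
    by_cases hj : j ∈ S
    swap
    · exact ⟨none, fun h => absurd h hj⟩
    rcases line_dichotomy (c := γ j) (Nat.succ_pos g) (h j hj) with ⟨i, t, ht, h⟩ | h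
    · refine ⟨some (i, t), fun _ => ⟨by simp, fun i' t' he => ?_⟩⟩
      obtain ⟨rfl, rfl⟩ := Prod.mk.inj (Option.some.inj he)
      exact ⟨ht, fun p hp => h p hp.1 hp.2⟩
    · exact ⟨none, fun _ => ⟨fun _ => h, by simp⟩⟩
  choose o ho using hd
  let m : Fin 3 → ℕ → ℕ := fun i t => (S.filter fun j => o j = some (i, t)).card
  have main := count_main (n := g + 1) (m := m) hG h0 (Nat.succ_pos _) hmarg hpath
    (S.filter fun j => o j = none) ln
    (fun j hj => (ho j (mem_filter.1 hj).1).1 (mem_filter.1 hj).2) ?_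
  · have h1 : S.card = ∑ y ∈ insertNone (univ ×ˢ range (g + 1)),
        (S.filter fun j => o j = y).card := by
      refine card_eq_sum_card_fiberwise fun j hj => ?_
      simp only [mem_coe, mem_insertNone]
      rintro ⟨i, t⟩ h
      exact mem_product.2 ⟨mem_univ _, mem_range.2 ((ho j hj).2 i t h).1⟩
    rw [sum_insertNone, sum_product, add_comm] at h1
    rw [hY, ← Nat.cast_add, ← h1] at main
    have hA' : (l : ℝ) < A := by exact_mod_cast (by omega : l < A)
    have h2 : (0 : ℝ) ≤ (A - 2 * l) * (A - 2 * l - 1) := by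
      rcases le_or_gt A (2 * l) with h3 | h3
      · have : (A : ℝ) ≤ 2 * l := by exact_mod_cast h3
        nlinarith
      · have : (2 * l + 1 : ℝ) ≤ A := by exact_mod_cast h3
        nlinarith
    have h3 : (2 * l + 1 : ℝ) ≤ 3 * (A * (A + 1) / 2) / (3 * A + 1 - (3 * l).succ) := by
      push_cast
      rw [le_div_iff₀ (by linarith)]
      nlinarith
    have h4 := (mul_le_mul_of_nonneg_right h3 (Nat.cast_nonneg (g + 1))).trans main
    exact absurd hg (not_lt.2 (by exact_mod_cast h4))
  · intro p hp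
    have h1 := hcov (p 0) (p 1) (by have := mem_pts.1 hp; omega)
    have h2 : (S.filter fun j => α j * p 0 + β j * p 1 = γ j) ⊆
        (univ.biUnion fun i => S.filter fun j => o j = some (i, p i)) ∪
          (S.filter fun j => o j = none).filter fun j => p ∈ ln j := by
      intro j hj
      obtain ⟨hS, hj⟩ := mem_filter.1 hj
      have hj' : p ∈ ln j := ⟨hp, hj⟩
      rcases h : o j with _ | ⟨i, t⟩
      · exact mem_union_right _ (mem_filter.2 ⟨mem_filter.2 ⟨hS, h⟩, hj'⟩)
      · refine mem_union_left _ (mem_biUnion.2 ⟨i, mem_univ _, mem_filter.2 ⟨hS, ?_⟩⟩)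
        rw [h, ((ho j hS).2 i t h).2 p hj']
    have h3 := (card_le_card h2).trans ((card_union_le _ _).trans
      (Nat.add_le_add_right card_biUnion_le _))
    rw [Fin.sum_univ_three] at h3
    unfold defi
    simp only [m]
    omega

variable {ι J : Type} [Fintype ι] [DecidableEq ι] [Fintype J] (a : J → ι → ℝ) (c : J → ℝ)

open Classical in
/-- The number of indices with a property, as a real number. -/
noncomputable def num (P : J → Prop) : ℝ := (univ.filter P).card

open Classical in
/-- The hyperplanes in `P` can be met at most `R` times at the price `w`. -/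
def Good (P : J → Prop) (w : ℝ) (R : ℕ) : Prop :=
  ∃ need : ι → ℕ, ((∑ i, need i : ℕ) : ℝ) ≤ w ∧ ∀ x : ι → ℕ, (∀ i, need i ≤ x i) →
    ∃ y : ι → ℕ, ∑ i, y i = ∑ i, x i ∧ (∀ j, ¬ P j → dot (a j) y = dot (a j) x) ∧
      (univ.filter fun j => P j ∧ dot (a j) y = c j).card ≤ R

omit [DecidableEq ι] in
lemma good_zero : Good a c (fun _ => False) 0 0 :=
  ⟨0, by simp, fun x _ => ⟨x, rfl, fun _ _ => rfl, by simp⟩⟩

open Classical in
lemma num_or (P Q : J → Prop) : ∃ S : Finset J, (∀ j, j ∈ S ↔ ¬ P j ∧ Q j) ∧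
    num (fun j => P j ∨ Q j) - num P = S.card := by
  refine ⟨univ.filter fun j => ¬ P j ∧ Q j, by simp, Eq.symm ?_⟩
  rw [eq_sub_iff_add_eq, num, num, ← Nat.cast_add, ← card_union_of_disjoint]
  · congr 2
    ext j
    simp only [mem_union, mem_filter, mem_univ, true_and]
    tauto
  · exact disjoint_filter.2 fun j _ h1 h2 => h1.1 h2

variable {a c}

omit [DecidableEq ι] in
open Classical in
lemma Good.step {P Q : J → Prop} {w e : ℝ} {R r : ℕ} (h : Good a c P w R) {S : Finset J}
    (hS : ∀ j, j ∈ S ↔ ¬ P j ∧ Q j)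
    (H : ∀ need : ι → ℕ, ∃ need' : ι → ℕ, ((∑ i, need' i : ℕ) : ℝ) ≤ (∑ i, need i : ℕ) + e ∧
      ∀ x : ι → ℕ, (∀ i, need' i ≤ x i) → ∃ y : ι → ℕ, (∀ i, need i ≤ y i) ∧
        ∑ i, y i = ∑ i, x i ∧ (∀ j, ¬ Q j → dot (a j) y = dot (a j) x) ∧
        (S.filter fun j => dot (a j) y = c j).card ≤ r) :
    Good a c (fun j => P j ∨ Q j) (w + e) (R + r) := by
  obtain ⟨need, h1, h2⟩ := h
  obtain ⟨need', h3, h4⟩ := H need
  refine ⟨need', by linarith, fun x hx => ?_⟩
  obtain ⟨y, y1, y2, y3, y4⟩ := h4 x hx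
  obtain ⟨z, z1, z2, z3⟩ := h2 y y1
  refine ⟨z, z1.trans y2, fun j hj => (z2 j fun h => hj (Or.inl h)).trans
    (y3 j fun h => hj (Or.inr h)), ?_⟩
  refine le_trans (card_le_card fun j hj => ?_) ((card_union_le _ _).trans (add_le_add z3 y4))
  simp only [mem_union, mem_filter, mem_univ, true_and, hS] at hj ⊢
  by_cases hP : P j
  · exact Or.inl ⟨hP, hj.2⟩
  · exact Or.inr ⟨⟨hP, hj.1.resolve_left hP⟩, (z2 j hP).symm.trans hj.2⟩

lemma sum_need (need : ι → ℕ) (u v : ι) (g : ℕ) :
    ∑ i, (Function.update need v 0 + Pi.single u (need v + g) : ι → ℕ) i = ∑ i, need i + g := by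
  simp only [Pi.add_apply, sum_add_distrib, sum_pi_single', mem_univ, if_true]
  rw [sum_update_of_mem (mem_univ _), ← add_sum_erase _ need (mem_univ v), sdiff_singleton_eq_erase]
  ring

omit [Fintype ι] in
lemma need_mv {need x : ι → ℕ} {u v : ι} {g t : ℕ}
    (hx : ∀ i, (Function.update need v 0 + Pi.single u (need v + g) : ι → ℕ) i ≤ x i)
    (ht : t ≤ g) : need v + t ≤ x u ∧
      ∀ i, (need + Pi.single u (if u = v then 0 else g - t) : ι → ℕ) i ≤ mv u v (need v + t) x i := by
  have hu : need v + t ≤ x u := by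
    have := hx u
    simp only [Pi.add_apply, Pi.single_eq_same] at this
    omega
  refine ⟨hu, fun i => ?_⟩
  have e1 := mv_add (v := v) hu i
  have e2 := hx i
  simp only [Pi.add_apply, Pi.single_apply, Function.update_apply] at e1 e2 ⊢
  by_cases e3 : i = v
  · subst e3
    by_cases e4 : i = u
    · subst e4
      simp only [if_true] at e1 e2 ⊢
      omega
    · simp only [if_true, if_neg e4] at e1 e2 ⊢
      omega
  · by_cases e4 : i = u
    · subst e4
      simp only [if_true, if_neg e3] at e1 e2 ⊢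
      omega
    · simp only [if_neg e3, if_neg e4] at e1 e2 ⊢
      omega

open Classical in
lemma Good.pair {P : J → Prop} {w : ℝ} {R : ℕ} (h : Good a c P w R) (u v : ι) (r : ℕ) :
    Good a c (fun j => P j ∨ a j u ≠ a j v)
      (w + (num (fun j => P j ∨ a j u ≠ a j v) - num P) / (r + 1)) (R + r) := by
  obtain ⟨S, hS, e⟩ := num_or P fun j => a j u ≠ a j v
  rw [e]
  refine h.step hS fun need =>
    ⟨Function.update need v 0 + Pi.single u (need v + S.card / (r + 1)), ?_, fun x hx => ?_⟩
  · rw [sum_need, Nat.cast_add]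
    have := Nat.cast_div_le (α := ℝ) (m := S.card) (n := r + 1)
    simpa using this
  · obtain ⟨t, -, ht2, ht3⟩ := pigeon S r 0
      (fun j t => dot (a j) x + (need v + t : ℕ) * (a j v - a j u) = c j) (by
        intro j hj t t' e1 e2
        have e3 := ((hS j).1 hj).2
        push_cast at e1 e2
        have e4 : (t : ℝ) * (a j v - a j u) = t' * (a j v - a j u) := by linarith
        exact_mod_cast mul_right_cancel₀ (sub_ne_zero.2 e3.symm) e4)
    obtain ⟨h1, h2⟩ := need_mv hx (t := t) (by omega)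
    refine ⟨mv u v (need v + t) x, fun i => le_trans (Nat.le_add_right _ _) (h2 i), sum_mv h1,
      fun j hj => ?_, ?_⟩
    · rw [dot_mv _ h1, not_not.1 hj]
      ring
    · simp only [dot_mv _ h1]
      convert ht3

open Classical in
lemma Good.pairs {κ : Type} {P : J → Prop} {w : ℝ} {R : ℕ} (h : Good a c P w R) (u v : κ → ι)
    (r : ℕ) (S : Finset κ) : Good a c (fun j => P j ∨ ∃ s ∈ S, a j (u s) ≠ a j (v s))
      (w + (num (fun j => P j ∨ ∃ s ∈ S, a j (u s) ≠ a j (v s)) - num P) / (r + 1))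
      (R + S.card * r) := by
  induction S using Finset.induction_on with
  | empty => simpa using h
  | insert s S hs ih =>
    have h1 := ih.pair (u s) (v s) r
    have e : (fun j => (P j ∨ ∃ s ∈ S, a j (u s) ≠ a j (v s)) ∨ a j (u s) ≠ a j (v s)) =
        fun j => P j ∨ ∃ t ∈ insert s S, a j (u t) ≠ a j (v t) := by
      funext j
      simp only [mem_insert, exists_eq_or_imp, eq_iff_iff]
      rw [or_assoc, or_comm (a := ∃ _, _)]
    rw [e] at h1
    convert h1 using 1
    · ring
    · rw [card_insert_of_notMem hs]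
      ring

open Classical in
lemma Good.triple {P : J → Prop} {w : ℝ} {R : ℕ} (h : Good a c P w R) {u v : ι} (z : ι)
    (h1 : u ≠ v) (l : ℕ) : Good a c (fun j => P j ∨ (a j u ≠ a j v ∨ a j u ≠ a j z))
      (w + (num (fun j => P j ∨ (a j u ≠ a j v ∨ a j u ≠ a j z)) - num P) / (2 * l + 1))
      (R + 3 * l) := by
  obtain ⟨S, hS, e⟩ := num_or P fun j => a j u ≠ a j v ∨ a j u ≠ a j z
  rw [e]
  set g := S.card / (2 * l + 1) with hg
  refine h.step hS fun need => ?_
  set n₁ : ι → ℕ := Function.update need z 0 + Pi.single u (need z) with hn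
  refine ⟨Function.update n₁ v 0 + Pi.single u (n₁ v + g), ?_, fun x hx => ?_⟩
  · have e := sum_need need u z 0
    rw [add_zero, add_zero] at e
    rw [sum_need, Nat.cast_add, e]
    have := Nat.cast_div_le (α := ℝ) (m := S.card) (n := 2 * l + 1)
    simpa using this
  · obtain ⟨t₁, t₂, ht, ht3⟩ := plane_core S (fun j => a j v - a j u) (fun j => a j z - a j u)
      (fun j => c j - dot (a j) x - n₁ v * (a j v - a j u) - need z * (a j z - a j u))
      (fun j hj => ((hS j).1 hj).2.imp (fun h => sub_ne_zero.2 h.symm)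
        fun h => sub_ne_zero.2 h.symm) l g (by
          rw [mul_add, mul_one, mul_comm]
          exact Nat.lt_div_mul_add (Nat.succ_pos _))
    obtain ⟨k1, k2⟩ := need_mv hx (t := t₁) (by omega)
    obtain ⟨k3, k4⟩ := need_mv (need := need) (u := u) (v := z) (g := t₂) (t := t₂)
      (x := mv u v (n₁ v + t₁) x) (fun i => le_trans (by
        simp only [hn, Pi.add_apply, Pi.single_apply, if_neg h1]
        split_ifs <;> omega) (k2 i)) le_rfl
    refine ⟨_, fun i => le_trans (Nat.le_add_right _ _) (k4 i), (sum_mv k3).trans (sum_mv k1),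
      fun j hj => ?_, ?_⟩
    · push Not at hj
      rw [dot_mv _ k3, dot_mv _ k1, ← hj.1, ← hj.2]
      ring
    · refine le_trans (card_le_card fun j hj => ?_) ht3
      simp only [mem_filter, dot_mv _ k3, dot_mv _ k1] at hj
      refine mem_filter.2 ⟨hj.1, ?_⟩
      have := hj.2
      push_cast at this
      linarith

open Classical in
lemma Good.finish {P : J → Prop} {w : ℝ} {R n : ℕ} (h : Good a c P w R)
    (ha : ∀ j, ∃ x y, a j x ≠ a j y) (x₀ : ι)
    (hc : ∀ x : ι → ℕ, ∑ i, x i + 1 = n → R < (univ.filter fun j => dot (a j) x = c j).card) :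
    (n : ℝ) ≤ w + (Fintype.card J - num P) := by
  have h1 := h.pairs (fun _ => x₀) id 0 univ
  have e : (fun j => P j ∨ ∃ s ∈ univ, a j x₀ ≠ a j (id s)) = fun _ => True := by
    funext j
    obtain ⟨x, y, hxy⟩ := ha j
    refine eq_true (Or.inr ?_)
    by_cases h : a j x₀ = a j x
    · exact ⟨y, mem_univ _, h ▸ hxy⟩
    · exact ⟨x, mem_univ _, h⟩
  rw [e] at h1
  obtain ⟨need, h1, h2⟩ := h1
  have hneed : n ≤ ∑ i, need i := by
    by_contra h
    obtain ⟨y, hy1, -, hy3⟩ := h2 (need + Pi.single x₀ (n - 1 - ∑ i, need i)) fun i => by simp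
    simp only [Pi.add_apply, sum_add_distrib, sum_pi_single', mem_univ, if_true] at hy1
    have h3 := hc y (by omega)
    simp only [true_and] at hy3
    omega
  refine le_trans (by exact_mod_cast hneed) (h1.trans_eq ?_)
  simp [num]

end Pool.Agent.MP_0ea322_co.h46
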