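import Pool.Agent.MP_0ea322_co.h46.Defs

/-!
Hyperplanes with an isolated coefficient.
-/

namespace Pool.Agent.MP_0ea322_co.h46

/-- `H` has an equation `a · x = c` in which one of the `d + 1` numbers `0, a₁, …, a_d` differs
from all the others. -/
def Isolated {d : ℕ} (H : Set (Fin d → ℝ)) : Prop :=
  ∃ (a : Fin d → ℝ) (c : ℝ), H = {x | ∑ i, a i * x i = c} ∧ ∃ i : Fin (d + 1), ∀ j, j ≠ i →
    (Fin.cons 0 a : Fin (d + 1) → ℝ) j ≠ (Fin.cons 0 a : Fin (d + 1) → ℝ) i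

end Pool.Agent.MP_0ea322_co.h46
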