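import Pool.Agent.MP_0ea322_co.h46.Exact
import Pool.Agent.MP_0ea322_co.h46.IsoDefs

/-!
The exact bound for covers by hyperplanes with an isolated coefficient.
-/

namespace Pool.Agent.MP_0ea322_co.h46

open Finset Equiv

open Classical in
/-- The planar bound at any level. -/
lemma plane_gen {J : Type} (S : Finset J) (α β γ : J → ℝ) (h : ∀ j ∈ S, α j ≠ 0 ∨ β j ≠ 0)
    (r g : ℕ) {φ : ℝ} (h0φ : 0 ≤ φ)
    (hφ : ∀ A : ℕ, r < 3 * A → (3 * A - r : ℝ) ≤ φ * (3 * (A * (A + 1) / 2)))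
    (hg : S.card * φ < g + 1) :
    ∃ t₁ t₂ : ℕ, t₁ + t₂ ≤ g ∧ (S.filter fun j => α j * t₁ + β j * t₂ = γ j).card ≤ r := by
  by_contra hcov
  push Not at hcov
  obtain ⟨A, G, hA, -, hG, h0, hmarg, hpath, hY⟩ := exists_profile (Nat.succ_pos r)
  let ln : J → Set (Fin 3 → ℕ) := fun j => {p | p ∈ pts (g + 1) ∧ α j * p 0 + β j * p 1 = γ j}
  have hd : ∀ j, ∃ o : Option (Fin 3 × ℕ), j ∈ S → (o = none → Skew (ln j)) ∧
      ∀ i t, o = some (i, t) → t < g + 1 ∧ ∀ p ∈ ln j, p i = t := by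
    intro j
    by_cases hj : j ∈ S
    swap
    · exact ⟨none, fun h => absurd h hj⟩
    rcases line_dichotomy (c := γ j) (Nat.succ_pos g) (h j hj) with ⟨i, t, ht, h⟩ | h
    · refine ⟨some (i, t), fun _ => ⟨by simp, fun i' t' he => ?_⟩⟩
      obtain ⟨rfl, rfl⟩ := Prod.mk.inj (Option.some.inj he)
      exact ⟨ht, fun p hp => h p hp.1 hp.2⟩
    · exact ⟨none, fun _ => ⟨fun _ => h, by simp⟩⟩
  choose o ho using hd
  let m : Fin 3 → ℕ → ℕ := fun i t => (S.filter fun j => o j = some (i, t)).card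
  have main := count_main (n := g + 1) (m := m) hG h0 (Nat.succ_pos _) hmarg hpath
    (S.filter fun j => o j = none) ln
    (fun j hj => (ho j (mem_filter.1 hj).1).1 (mem_filter.1 hj).2) ?_
  · have h1 : S.card = ∑ y ∈ insertNone (univ ×ˢ range (g + 1)),
        (S.filter fun j => o j = y).card := by
      refine card_eq_sum_card_fiberwise fun j hj => ?_
      simp only [mem_coe, mem_insertNone]
      rintro ⟨i, t⟩ h
      exact mem_product.2 ⟨mem_univ _, mem_range.2 ((ho j hj).2 i t h).1⟩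
    rw [sum_insertNone, sum_product, add_comm] at h1
    rw [hY, ← Nat.cast_add, ← h1] at main
    have hA' : (r : ℝ) < 3 * A := by exact_mod_cast (by omega : r < 3 * A)
    have h3 : (1 : ℝ) ≤ φ * (3 * (A * (A + 1) / 2) / (3 * A + 1 - r.succ)) := by
      push_cast
      rw [← mul_div_assoc, le_div_iff₀ (by linarith)]
      linarith [hφ A (by omega)]
    have h4 := mul_le_mul_of_nonneg_left main h0φ
    have h5 := mul_le_mul_of_nonneg_right h3 (Nat.cast_nonneg (α := ℝ) (g + 1))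
    rw [mul_assoc, one_mul] at h5
    have h6 := h5.trans h4
    push_cast at h6
    linarith
  · intro p hp
    have h1 := hcov (p 0) (p 1) (by have := mem_pts.1 hp; omega)
    have h2 : (S.filter fun j => α j * p 0 + β j * p 1 = γ j) ⊆
        (univ.biUnion fun i => S.filter fun j => o j = some (i, p i)) ∪
          (S.filter fun j => o j = none).filter fun j => p ∈ ln j := by
      intro j hj
      obtain ⟨hS, hj⟩ := mem_filter.1 hj
      have hj' : p ∈ ln j := ⟨hp, hj⟩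
      rcases h : o j with _ | ⟨i, t⟩
      · exact mem_union_right _ (mem_filter.2 ⟨mem_filter.2 ⟨hS, h⟩, hj'⟩)
      · refine mem_union_left _ (mem_biUnion.2 ⟨i, mem_univ _, mem_filter.2 ⟨hS, ?_⟩⟩)
        rw [h, ((ho j hS).2 i t h).2 p hj']
    have h3 := (card_le_card h2).trans ((card_union_le _ _).trans
      (Nat.add_le_add_right card_biUnion_le _))
    rw [Fin.sum_univ_three] at h3
    unfold defi
    simp only [m]
    omega

variable {ι J : Type} [Fintype ι] [DecidableEq ι] [Fintype J] {a : J → ι → ℝ} {c : J → ℝ}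

open Classical in
lemma Good.tripleG {P : J → Prop} {w : ℝ} {R : ℕ} (h : Good a c P w R) {u v : ι} (z : ι)
    (h1 : u ≠ v) (r : ℕ) {φ : ℝ} (h0φ : 0 ≤ φ)
    (hφ : ∀ A : ℕ, r < 3 * A → (3 * A - r : ℝ) ≤ φ * (3 * (A * (A + 1) / 2))) :
    Good a c (fun j => P j ∨ (a j u ≠ a j v ∨ a j u ≠ a j z))
      (w + (num (fun j => P j ∨ (a j u ≠ a j v ∨ a j u ≠ a j z)) - num P) * φ) (R + r) := by
  obtain ⟨S, hS, e⟩ := num_or P fun j => a j u ≠ a j v ∨ a j u ≠ a j z
  rw [e]
  set g := ⌊S.card * φ⌋₊ with hg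
  refine h.step hS fun need => ?_
  set n₁ : ι → ℕ := Function.update need z 0 + Pi.single u (need z) with hn
  refine ⟨Function.update n₁ v 0 + Pi.single u (n₁ v + g), ?_, fun x hx => ?_⟩
  · have e := sum_need need u z 0
    rw [add_zero, add_zero] at e
    rw [sum_need, Nat.cast_add, e]
    exact add_le_add le_rfl (Nat.floor_le (mul_nonneg (Nat.cast_nonneg _) h0φ))
  · obtain ⟨t₁, t₂, ht, ht3⟩ := plane_gen S (fun j => a j v - a j u) (fun j => a j z - a j u)
      (fun j => c j - dot (a j) x - n₁ v * (a j v - a j u) - need z * (a j z - a j u))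
      (fun j hj => ((hS j).1 hj).2.imp (fun h => sub_ne_zero.2 h.symm)
        fun h => sub_ne_zero.2 h.symm) r g h0φ hφ (Nat.lt_floor_add_one _)
    obtain ⟨k1, k2⟩ := need_mv hx (t := t₁) (by omega)
    obtain ⟨k3, k4⟩ := need_mv (need := need) (u := u) (v := z) (g := t₂) (t := t₂)
      (x := mv u v (n₁ v + t₁) x) (fun i => le_trans (by
        simp only [hn, Pi.add_apply, Pi.single_apply, if_neg h1]
        split_ifs <;> omega) (k2 i)) le_rfl
    refine ⟨_, fun i => le_trans (Nat.le_add_right _ _) (k4 i), (sum_mv k3).trans (sum_mv k1),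
      fun j hj => ?_, ?_⟩
    · push Not at hj
      rw [dot_mv _ k3, dot_mv _ k1, ← hj.1, ← hj.2]
      ring
    · refine le_trans (card_le_card fun j hj => ?_) ht3
      simp only [mem_filter, dot_mv _ k3, dot_mv _ k1] at hj
      refine mem_filter.2 ⟨hj.1, ?_⟩
      have := hj.2
      push_cast at this
      linarith

variable {π : ι → ι}

lemma tri_val {L η : ℝ} {M r : ℕ} (hL : L = M) (h0 : 0 ≤ η) (h1 : η ≤ 1)
    (hr : (2 * r : ℝ) = 3 * (L + η)) (A : ℕ) :
    (3 * A - r : ℝ) ≤ (L + 2 - η) / ((L + 1) * (L + 2)) * (3 * (A * (A + 1) / 2)) := by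
  have hM : (0 : ℝ) ≤ L := hL ▸ Nat.cast_nonneg M
  have hA : (0 : ℝ) ≤ A := Nat.cast_nonneg A
  rw [div_mul_eq_mul_div, le_div_iff₀ (by positivity)]
  have key : 0 ≤ (A - L - 1) * ((L + 2) * (A - L) - η * (L + 2 + A)) := by
    rcases lt_trichotomy A (M + 1) with h | h | h
    · have : (A : ℝ) ≤ L := by rw [hL]; exact_mod_cast Nat.lt_succ_iff.1 h
      exact mul_nonneg_of_nonpos_of_nonpos (by linarith) (by nlinarith)
    · have : (A : ℝ) = L + 1 := by rw [hL]; exact_mod_cast h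
      rw [this]
      simp
    · have : L + 2 ≤ A := by rw [hL]; exact_mod_cast h
      exact mul_nonneg (by linarith) (by nlinarith)
  have e : (r : ℝ) = 3 * (L + η) / 2 := by linarith
  rw [e]
  nlinarith

open Classical in
theorem iso_core (i : J → ι) (hi : ∀ j x, x ≠ i j → a j x ≠ a j (i j)) {n K m s L R : ℕ}
    (hc : ∀ x : ι → ℕ, ∑ i, x i + 1 = n → K < (univ.filter fun j => dot (a j) x = c j).card)
    (hm : (univ.filter fun x => π x ≠ x).card = 2 * (m + 1))
    (hZ : ∀ x, π x = x → ∃ y, y ≠ x ∧ π y = y) (hπ : ∀ x, π (π x) = x) (u : ℕ → ι) (idx : ι → ℕ)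
    (hu : ∀ x, π x ≠ x → idx x < m + 1 ∧ (u (idx x) = x ∨ u (idx x) = π x))
    {η : ℝ} (h1 : η ≤ 1)
    (htri : ∀ (σ : Perm ι) P w R', Good a c P w R' → Good a c (fun j => P j ∨ ¬ Tg π (a j) σ)
      (w + (num (fun j => P j ∨ ¬ Tg π (a j) σ) - num P) * ((L + 2 - η) / ((L + 1) * (L + 2))))
      (R' + R))
    (hK : (m + 1) * L + s + R ≤ K) (hs : s ≤ m + 1) (h0 : 0 ≤ η) {t : ℝ}
    (ht : t * Fintype.card ι ≤ 2 * s + η * (univ.filter fun x => π x = x).card) :
    (n : ℝ) * ((L + 1) * (L + 2)) ≤ (L + 2 - t) * Fintype.card J := by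
  obtain ⟨x₀, hx₀⟩ := card_pos.1 (hm ▸ by omega : 0 < (univ.filter fun x => π x ≠ x).card)
  replace hx₀ := (mem_filter.1 hx₀).2
  have hD : (Fintype.card ι : ℝ) = (univ.filter fun x => π x = x).card + 2 * (m + 1) := by
    have := card_filter_add_card_filter_not (s := univ) fun x => π x = x
    rw [hm, card_univ] at this
    exact_mod_cast this.symm
  have hD0 : (0 : ℝ) < Fintype.card ι := by exact_mod_cast Fintype.card_pos_iff.2 ⟨x₀⟩
  set θ : ℝ := s / (m + 1) with hθ
  have θ2 : θ * (m + 1) = s := div_mul_cancel₀ _ (by positivity)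
  have hg : ∀ j, ∑ _σ : Perm ι, t ≤
      ∑ σ : Perm ι, (θ + (η - θ) * if Hit π (i j) σ then 1 else 0) := fun j => by
    rw [sum_add_distrib, ← mul_sum, ← num_eq, sum_const, sum_const, card_univ, nsmul_eq_mul,
      nsmul_eq_mul]
    refine le_of_mul_le_mul_right ?_ hD0
    have := mul_le_mul_of_nonneg_left ht (Nat.cast_nonneg (α := ℝ) (Fintype.card (Perm ι)))
    rw [add_mul, mul_assoc (η - θ), hit_count, mul_assoc]
    refine this.trans (le_of_eq ?_)
    rw [hD, ← θ2]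
    ring
  have k := sum_le_sum fun j (_ : j ∈ univ) => hg j
  rw [sum_comm, sum_comm (s := (univ : Finset J))] at k
  obtain ⟨σ, -, hσ⟩ := exists_le_of_sum_le univ_nonempty k
  have hbad : ∀ j, ¬ Hit π (i j) σ → idx (σ.symm (i j)) < m + 1 ∧
      a j (σ (u (idx (σ.symm (i j))))) ≠ a j (σ (π (u (idx (σ.symm (i j)))))) := by
    intro j hj
    have e : a j (σ (π (σ.symm (i j)))) ≠ a j (σ (σ.symm (i j))) := by
      rw [apply_symm_apply]
      exact hi j _ fun e => hj (σ.eq_symm_apply.2 e)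
    refine ⟨(hu _ hj).1, ?_⟩
    rcases (hu _ hj).2 with h | h <;> rw [h]
    · exact e.symm
    · rwa [hπ]
  have htg : ∀ j, Hit π (i j) σ → ¬ Tg π (a j) σ := fun j hj h => by
    obtain ⟨y, h1, h2⟩ := hZ _ hj
    have := h _ _ h2 hj
    rw [apply_symm_apply] at this
    exact hi j _ (fun e => h1 (σ.eq_symm_apply.2 e)) this
  let e : ℕ → ℝ := fun r => ∑ j, if ¬ Hit π (i j) σ ∧ idx (σ.symm (i j)) = r then 1 else 0
  obtain ⟨S, hS1, hS2, hS3⟩ := share e (fun _ => sum_nonneg fun _ _ => by split_ifs <;> norm_num)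
    s (range (m + 1)) (by simpa using hs)
  have he : ∀ T : Finset ℕ, ∑ r ∈ T, e r =
      ∑ j, if ¬ Hit π (i j) σ ∧ idx (σ.symm (i j)) ∈ T then 1 else 0 := fun T => by
    rw [sum_comm]
    refine sum_congr rfl fun j _ => ?_
    by_cases h : Hit π (i j) σ <;> simp [h]
  rw [card_range, he, he] at hS3
  have g1 := (htri σ _ _ _ ((good_zero a c).pairs (fun r => σ (u r)) (fun r => σ (π (u r)))
    (L + 1) S)).pairs (fun r => σ (u r)) (fun r => σ (π (u r))) L (range (m + 1) \ S)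
  have g2 := g1.finish (fun j => by
    by_cases h : x₀ = i j
    · exact ⟨π x₀, i j, hi j _ (h ▸ hx₀)⟩
    · exact ⟨x₀, i j, hi j _ h⟩) x₀ fun x hx => lt_of_le_of_lt (by
    rw [card_sdiff_of_subset hS1, card_range, hS2]
    obtain ⟨r, hr⟩ := Nat.exists_eq_add_of_le hs
    rw [hr] at hK
    rw [hr, Nat.add_sub_cancel_left]
    nlinarith) (hc x hx)
  rw [num_zero (P := fun _ => False) fun _ => id] at g2
  set P1 := fun j => False ∨ ∃ r ∈ S, a j (σ (u r)) ≠ a j (σ (π (u r))) with hP1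
  set P2 := fun j => P1 j ∨ ¬ Tg π (a j) σ with hP2
  set P3 := fun j => P2 j ∨ ∃ r ∈ range (m + 1) \ S, a j (σ (u r)) ≠ a j (σ (π (u r))) with hP3
  have k1 : num P3 = Fintype.card J := by
    have : P3 = fun _ => True := funext fun j => eq_true (by
      by_cases h : Hit π (i j) σ
      · exact Or.inl (Or.inr (htg j h))
      by_cases e3 : idx (σ.symm (i j)) ∈ S
      · exact Or.inl (Or.inl (Or.inr ⟨_, e3, (hbad j h).2⟩))
      · exact Or.inr ⟨_, mem_sdiff.2 ⟨mem_range.2 (hbad j h).1, e3⟩, (hbad j h).2⟩)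
    simp [this, num]
  have k2 : η * (∑ j, if Hit π (i j) σ then (1 : ℝ) else 0) +
      (∑ j, if ¬ Hit π (i j) σ ∧ idx (σ.symm (i j)) ∈ S then (1 : ℝ) else 0) ≤
      num P1 + η * (num P2 - num P1) := by
    simp only [num_eq, mul_sum, ← sum_add_distrib, ← sum_sub_distrib]
    refine sum_le_sum fun j _ => ?_
    by_cases h : Hit π (i j) σ
    · have p2 : P2 j := Or.inr (htg j h)
      by_cases p1 : P1 j <;> simp [h, p1, p2, h1]
    · by_cases e3 : idx (σ.symm (i j)) ∈ S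
      · have p1 : P1 j := Or.inr ⟨_, e3, (hbad j h).2⟩
        have p2 : P2 j := Or.inl p1
        simp [h, e3, p1, p2]
      · by_cases p1 : P1 j
        · have p2 : P2 j := Or.inl p1
          simp [h, e3, p1, p2]
        · by_cases p2 : P2 j <;> simp [h, e3, p1, p2, h0]
  have k3 : (∑ j, if ¬ Hit π (i j) σ ∧ idx (σ.symm (i j)) ∈ range (m + 1) then (1 : ℝ) else 0) =
      Fintype.card J - ∑ j, if Hit π (i j) σ then (1 : ℝ) else 0 := by
    rw [eq_sub_iff_add_eq, ← sum_add_distrib, ← card_univ, ← mul_one (card univ : ℝ),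
      ← nsmul_eq_mul, ← sum_const]
    refine sum_congr rfl fun j _ => ?_
    by_cases h : Hit π (i j) σ
    · simp [h]
    · simp [h, (hbad j h).1]
  rw [k3, ← θ2] at hS3
  rw [sum_add_distrib, ← mul_sum, sum_const, sum_const, card_univ, nsmul_eq_mul,
    nsmul_eq_mul] at hσ
  push_cast at hS3
  rw [mul_comm θ, mul_assoc] at hS3
  have k4 := le_of_mul_le_mul_left hS3 (by positivity)
  refine (mul_le_mul_of_nonneg_right g2 (by positivity)).trans ?_
  rw [k1]
  push_cast
  field_simp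
  nlinarith

open Classical in
theorem iso_count {d : ℕ} (hd : 3 ≤ d) (a : J → Fin (d + 1) → ℝ) (c : J → ℝ) (i : J → Fin (d + 1))
    (hi : ∀ j x, x ≠ i j → a j x ≠ a j (i j)) {n K L κ : ℕ}
    (hc : ∀ x : Fin (d + 1) → ℕ, ∑ i, x i + 1 = n →
      K < (univ.filter fun j => dot (a j) x = c j).card)
    (hK : 2 * K = (d + 1) * L + κ) (hκ : κ ≤ d) :
    (n : ℝ) * ((L + 1) * (L + 2)) ≤ (L + 2 - κ / (d + 1)) * Fintype.card J := by
  have ht : (κ / (d + 1) : ℝ) * Fintype.card (Fin (d + 1)) = κ := by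
    rw [Fintype.card_fin]
    push_cast
    exact div_mul_cancel₀ _ (by positivity)
  rcases Nat.even_or_odd' (d + 1) with ⟨M, hM | hM⟩
  · obtain ⟨m, rfl⟩ : ∃ m, M = m + 1 := ⟨M - 1, by omega⟩
    have h : 2 * (m + 1) ≤ d + 1 := hM.ge
    have hz : ∀ x, mt d (m + 1) x ≠ x := fun x => by
      have := x.2
      rw [ne_eq, mt_fix h]
      omega
    rw [hM, mul_assoc] at hK
    obtain ⟨s, hs⟩ : ∃ s, κ = 2 * s := ⟨κ / 2, by omega⟩
    refine iso_core i hi hc (mt_card h).1 (fun x hx => absurd hx (hz x)) (mt_mt h)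
      (fun r => pos d (2 * r)) (fun x => x.val / 2) (mt_idx h) (s := s) (R := 0) (η := 0)
      zero_le_one (fun σ P w R' hG => ?_) (by omega) (by omega) le_rfl (by rw [ht, hs]; simp)
    have e : (fun j => P j ∨ ¬ Tg (mt d (m + 1)) (a j) σ) = P := by
      funext j
      have : Tg (mt d (m + 1)) (a j) σ := fun x _ hx => absurd hx (hz x)
      simp [this]
    simpa [e] using hG
  obtain ⟨m, rfl⟩ : ∃ m, M = m + 2 := ⟨M - 2, by omega⟩
  have h : 2 * (m + 1) ≤ d + 1 := by omega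
  have hz : (univ.filter fun x => mt d (m + 1) x = x).card = 3 := by
    have := (mt_card h).2
    omega
  have hZ : ∀ x, mt d (m + 1) x = x → ∃ y, y ≠ x ∧ mt d (m + 1) y = y := fun x _ => by
    obtain ⟨y, h1, h2⟩ := exists_mem_ne (s := univ.filter fun x => mt d (m + 1) x = x) (by omega) x
    exact ⟨y, h2, (mem_filter.1 h1).2⟩
  have hD : (d + 1) * L = 2 * ((m + 1) * L) + 3 * L := by
    rw [hM]
    ring
  obtain ⟨s, w, R, hs, hw, hκ', hR⟩ : ∃ s w R, s ≤ m + 1 ∧ w ≤ 2 ∧ κ = 2 * s + w ∧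
      2 * R = 3 * L + w := by
    rcases Nat.even_or_odd' L with ⟨l, hl | hl⟩
    · rcases Nat.eq_zero_or_pos κ with h0 | h0
      · exact ⟨0, 0, 3 * l, by omega, by omega, by omega, by omega⟩
      · exact ⟨κ / 2 - 1, 2, 3 * l + 1, by omega, by omega, by omega, by omega⟩
    · exact ⟨κ / 2, 1, 3 * l + 2, by omega, by omega, by omega, by omega⟩
  have hw' : (w : ℝ) ≤ 2 := by exact_mod_cast hw
  have hR' : (2 * R : ℝ) = 3 * L + w := by exact_mod_cast hR
  have hL0 : (0 : ℝ) ≤ L := Nat.cast_nonneg _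
  refine iso_core i hi hc (mt_card h).1 hZ (mt_mt h) (fun r => pos d (2 * r)) (fun x => x.val / 2)
    (mt_idx h) (s := s) (R := R) (η := w / 3) (by linarith) (fun σ P w' R' hG => ?_) (by omega) hs
    (by positivity) (by rw [ht, hκ', hz]; push_cast; linarith)
  obtain ⟨x, y, z, hxy, -, -, hs⟩ := card_eq_three.1 hz
  have hs' : ∀ p, mt d (m + 1) p = p ↔ p = x ∨ p = y ∨ p = z := fun p => by
    simpa using Finset.ext_iff.1 hs p
  have e : (fun j => P j ∨ ¬ Tg (mt d (m + 1)) (a j) σ) =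
      fun j => P j ∨ (a j (σ x) ≠ a j (σ y) ∨ a j (σ x) ≠ a j (σ z)) := by
    funext j
    congr 1
    simp only [Tg, hs', eq_iff_iff, ne_eq, ← not_and_or, not_iff_not]
    constructor
    · exact fun h => ⟨h x y (by simp) (by simp), h x z (by simp) (by simp)⟩
    · rintro ⟨h1, h2⟩ p q (rfl | rfl | rfl) (rfl | rfl | rfl) <;> simp only [← h1, ← h2]
  rw [e]
  exact hG.tripleG (σ z) (σ.injective.ne hxy) R (div_nonneg (by linarith) (by positivity))
    fun A _ => tri_val rfl (by positivity) (by linarith) (by linarith) A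

theorem iso_final (n d k : ℕ) (hd : 3 ≤ d) (hk : 1 ≤ k) (C : Multiset (Set (Fin d → ℝ)))
    (hC : IsCover n d k C) (hI : ∀ H ∈ C, Isolated H) : fstar k d * n ≤ C.card := by
  classical
  obtain ⟨K, rfl⟩ := Nat.exists_eq_add_of_le' hk
  choose a c hH i hi using fun j : C.ToType => hI j Multiset.coe_mem
  obtain ⟨L, κ, hκ, hK⟩ : ∃ L κ : ℕ, κ < d + 1 ∧ 2 * K = (d + 1) * L + κ :=
    ⟨2 * K / (d + 1), 2 * K % (d + 1), Nat.mod_lt _ (by omega), (Nat.div_add_mod _ _).symm⟩
  have h := iso_count (n := n) hd (fun j => Fin.cons 0 (a j)) c i hi (fun x hx => by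
    have h1 := hC.2 (fun i => x i.succ) ⟨fun i => x i.succ, by
      rw [Fin.sum_univ_succ] at hx
      dsimp only
      omega, rfl⟩
    rw [← C.map_univ_coe, Multiset.countP_map] at h1
    refine Nat.lt_of_succ_le (h1.trans (le_of_eq ?_))
    rw [card_def, filter_val]
    congr 1
    refine Multiset.filter_congr fun j _ => ?_
    rw [hH j]
    simp [dot, Fin.sum_univ_succ]) hK (by omega)
  rw [Multiset.card_coe] at h
  have hK' : (2 * K : ℝ) = (d + 1) * L + κ := by exact_mod_cast hK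
  have hu : (κ / (d + 1) : ℝ) ≤ 1 :=
    (div_le_one (by positivity)).2 (by exact_mod_cast hκ.le)
  have hp : (0 : ℝ) < L + 2 - κ / (d + 1) := by linarith [Nat.cast_nonneg (α := ℝ) L]
  refine (mul_le_mul_of_nonneg_right (fstar_le' (A := L + 1) (by omega) (by nlinarith))
    (Nat.cast_nonneg n)).trans ?_
  have t1 : (d + 1) * ((L + 1 : ℕ) : ℝ) - K = (d + 1) * (L + 2 - κ / (d + 1) : ℝ) / 2 := by
    push_cast
    field_simp
    linarith
  rw [t1, div_mul_eq_mul_div, div_le_iff₀ (by positivity)]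
  push_cast
  nlinarith [mul_le_mul_of_nonneg_left h (by positivity : (0 : ℝ) ≤ d + 1)]

end Pool.Agent.MP_0ea322_co.h46
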