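import Pool.Agent.MP_0ea322_co.h46.Good

/-!
Switching estimates for a random relabelling of a matching with a small fixed set.
-/

namespace Pool.Agent.MP_0ea322_co.h46

open Finset Equiv

open Classical in
lemma dcount {X Y W : Type} [Fintype X] [Fintype Y] [Fintype W] (P : X → Prop) (Q : Y → Prop)
    (R : X → W → Prop) (φ : X → W → Y) (lo hi : ℕ)
    (h1 : ∀ x, P x → ∃ T : Finset W, lo ≤ T.card ∧ ∀ w ∈ T, R x w)
    (h2 : ∀ x w, P x → R x w → Q (φ x w))
    (h3 : ∀ y (T : Finset (X × W)), (∀ z ∈ T, (P z.1 ∧ R z.1 z.2) ∧ φ z.1 z.2 = y) → T.card ≤ hi) :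
    lo * num P ≤ hi * num Q := by
  let T : Finset (X × W) := univ.filter fun z => P z.1 ∧ R z.1 z.2
  have e1 : T.card ≤ hi * (univ.filter Q).card :=
    card_le_mul_card_image_of_maps_to (f := fun z => φ z.1 z.2)
      (fun z hz => mem_filter.2 ⟨mem_univ _, h2 _ _ (mem_filter.1 hz).2.1 (mem_filter.1 hz).2.2⟩)
      hi fun y _ => h3 y _ fun z hz => ⟨(mem_filter.1 (mem_filter.1 hz).1).2, (mem_filter.1 hz).2⟩
  have e2 : lo * (univ.filter P).card ≤ T.card := by
    rw [card_eq_sum_card_fiberwise (f := fun z => z.1) (s := T) (t := univ.filter P)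
      (fun z hz => mem_filter.2 ⟨mem_univ _, (mem_filter.1 hz).2.1⟩), mul_comm, ← smul_eq_mul]
    refine card_nsmul_le_sum _ _ _ fun x hx => ?_
    obtain ⟨U, hU, hU'⟩ := h1 x (mem_filter.1 hx).2
    refine hU.trans (card_le_card_of_injOn (fun w => (x, w)) (fun w hw => ?_) fun w _ w' _ e => ?_)
    · simp only [coe_filter, mem_univ, true_and, Set.mem_ofPred_eq, T, mem_filter, and_true]
      exact ⟨(mem_filter.1 hx).2, hU' w hw⟩
    · exact (Prod.mk.inj e).2
  unfold num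
  exact_mod_cast e2.trans e1

lemma num_mono {X : Type} [Fintype X] {P Q : X → Prop} (h : ∀ x, P x → Q x) : num P ≤ num Q := by
  classical
  unfold num
  exact_mod_cast card_le_card fun x hx => by
    simp only [mem_filter, mem_univ, true_and] at hx ⊢
    exact h x hx

lemma num_nonneg {X : Type} [Fintype X] (P : X → Prop) : 0 ≤ num P := Nat.cast_nonneg _

open Classical in
lemma num_eq {X : Type} [Fintype X] (P : X → Prop) : num P = ∑ x, if P x then (1 : ℝ) else 0 := by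
  simp [num]

lemma num_add {X : Type} [Fintype X] {P Q T : X → Prop} (h : ∀ x, P x → ¬ Q x)
    (h1 : ∀ x, P x → T x) (h2 : ∀ x, Q x → T x) : num P + num Q ≤ num T := by
  classical
  simp only [num_eq, ← sum_add_distrib]
  refine sum_le_sum fun x _ => ?_
  have := h x
  have := h1 x
  have := h2 x
  split_ifs <;> simp_all

lemma num_zero {X : Type} [Fintype X] {P : X → Prop} (h : ∀ x, ¬ P x) : num P = 0 := by
  simp [num_eq, h]

variable {ι : Type} [Fintype ι] [DecidableEq ι] (π : ι → ι) (a : ι → ℝ)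

/-- No pair is bad. -/
def Inv (σ : Perm ι) : Prop := ∀ x, a (σ (π x)) = a (σ x)

/-- Not constant off the fixed set. -/
def Out (σ : Perm ι) : Prop := ∃ x y, π x ≠ x ∧ π y ≠ y ∧ a (σ x) ≠ a (σ y)

/-- Two pairs are bad. -/
def Two (σ : Perm ι) : Prop :=
  ∃ x y, a (σ (π x)) ≠ a (σ x) ∧ a (σ (π y)) ≠ a (σ y) ∧ y ≠ x ∧ y ≠ π x

/-- Constant on the fixed set. -/
def Tg (σ : Perm ι) : Prop := ∀ x y, π x = x → π y = y → a (σ x) = a (σ y)

/-- The label `i` sits in the fixed set. -/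
def Hit (i : ι) (σ : Perm ι) : Prop := π (σ.symm i) = σ.symm i

variable {π a}

omit [Fintype ι] in
lemma fb_facts (hπ : ∀ x, π (π x) = x) {σ : Perm ι} (h : Inv π a σ) {p q : ι} (hp : π p ≠ p)
    (hq : π q ≠ q) (hpq : a (σ p) ≠ a (σ q)) (c : ι → ℝ) (hc : ∀ x, c x = a (σ (swap p q x))) :
    q ≠ p ∧ q ≠ π p ∧ c p ≠ c q ∧ c (π p) = c q ∧ c (π q) = c p ∧
      ∀ x, c (π x) ≠ c x → x = p ∨ x = q ∨ x = π p ∨ x = π q := by
  have e0 : q ≠ p := fun e => hpq (by rw [e])
  have e1 : q ≠ π p := fun e => hpq (by rw [e, h p])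
  have e2 : π q ≠ p := fun e => e1 (by rw [← e, hπ])
  refine ⟨e0, e1, ?_, ?_, ?_, fun x hx => ?_⟩
  · rw [hc, hc, swap_apply_left, swap_apply_right]
    exact hpq.symm
  · rw [hc, hc, swap_apply_right, swap_apply_of_ne_of_ne hp e1.symm, h p]
  · rw [hc, hc, swap_apply_left, swap_apply_of_ne_of_ne e2 hq, h q]
  · by_contra hx'
    push Not at hx'
    have e4 : π x ≠ p := fun e => hx'.2.2.1 (by rw [← e, hπ])
    have e5 : π x ≠ q := fun e => hx'.2.2.2 (by rw [← e, hπ])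
    rw [hc, hc, swap_apply_of_ne_of_ne e4 e5, swap_apply_of_ne_of_ne hx'.1 hx'.2.1] at hx
    exact hx (h x)

lemma switch (hπ : ∀ x, π (π x) = x) {m : ℕ} (hm : (univ.filter fun x => π x ≠ x).card = 2 * m)
    (Q : Perm ι → Prop) (hQ : ∀ σ p q, π p ≠ p → π q ≠ q → Q σ → Q (σ * swap p q)) :
    (2 * m - 2 : ℝ) * num (fun σ => (Inv π a σ ∧ Out π a σ) ∧ Q σ) ≤
      num fun σ => Two π a σ ∧ Q σ := by
  classical
  rcases Nat.eq_zero_or_pos m with rfl | hm0
  · exact le_trans (mul_nonpos_of_nonpos_of_nonneg (by norm_num) (num_nonneg _)) (num_nonneg _)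
  have h := dcount (fun σ => (Inv π a σ ∧ Out π a σ) ∧ Q σ) (fun σ => Two π a σ ∧ Q σ)
    (fun σ (w : ι × ι) => π w.1 ≠ w.1 ∧ π w.2 ≠ w.2 ∧ a (σ w.1) ≠ a (σ w.2))
    (fun σ w => σ * swap w.1 w.2) (4 * (2 * m - 2)) 4 ?_ ?_ ?_
  · rw [Nat.cast_mul, Nat.cast_sub (by omega)] at h
    push_cast at h
    linarith
  · rintro σ ⟨⟨h1, x, y, hx, hy, hxy⟩, -⟩
    let O := univ.filter fun x => π x ≠ x
    let A := O.filter fun z => a (σ z) = a (σ x)
    let B := O.filter fun z => ¬ a (σ z) = a (σ x)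
    have hAB : A.card + B.card = 2 * m := (card_filter_add_card_filter_not _).trans hm
    have hO : ∀ z, π z ≠ z → π z ∈ O ∧ z ∈ O := fun z hz => by
      simp only [O, mem_filter, mem_univ, true_and, hπ]
      exact ⟨hz.symm, hz⟩
    have hA : 1 < A.card := one_lt_card.2 ⟨π x, mem_filter.2 ⟨(hO x hx).1, h1 x⟩, x,
      mem_filter.2 ⟨(hO x hx).2, rfl⟩, hx⟩
    have hB : 1 < B.card := one_lt_card.2 ⟨π y, mem_filter.2 ⟨(hO y hy).1, by
      rw [h1 y]; exact hxy.symm⟩, y, mem_filter.2 ⟨(hO y hy).2, hxy.symm⟩, hy⟩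
    have hd : Disjoint (A ×ˢ B) (B ×ˢ A) := disjoint_left.2 fun w h1 h2 =>
      (mem_filter.1 (mem_product.1 h2).1).2 (mem_filter.1 (mem_product.1 h1).1).2
    refine ⟨A ×ˢ B ∪ B ×ˢ A, ?_, fun w hw => ?_⟩
    · rw [card_union_of_disjoint hd, card_product, card_product]
      obtain ⟨s, hs⟩ := Nat.exists_eq_add_of_le hA
      obtain ⟨t, ht⟩ := Nat.exists_eq_add_of_le hB
      rw [show 2 * m - 2 = 2 + s + t by omega, hs, ht]
      simp only [Nat.succ_eq_add_one]
      nlinarith [Nat.zero_le (s * t)]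
    · simp only [A, B, O, mem_union, mem_product, mem_filter, mem_univ, true_and] at hw ⊢
      rcases hw with ⟨⟨h2, h3⟩, h4, h5⟩ | ⟨⟨h2, h3⟩, h4, h5⟩
      · exact ⟨h2, h4, fun e => h5 (e ▸ h3)⟩
      · exact ⟨h2, h4, fun e => h3 (e ▸ h5)⟩
  · rintro σ ⟨p, q⟩ ⟨⟨h1, -⟩, h2⟩ ⟨hp, hq, hpq⟩
    obtain ⟨f0, f1, f2, f3, f4, -⟩ := fb_facts hπ h1 hp hq hpq _ fun _ => rfl
    exact ⟨⟨p, q, fun e => f2 (e.symm.trans f3), fun e => f2 (f4.symm.trans e), f0, f1⟩,
      hQ σ p q hp hq h2⟩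
  · intro τ T hT
    have key : ∀ z ∈ T, (z.2.2 ≠ z.2.1 ∧ z.2.2 ≠ π z.2.1 ∧ a (τ z.2.1) ≠ a (τ z.2.2) ∧
        a (τ (π z.2.1)) = a (τ z.2.2) ∧ a (τ (π z.2.2)) = a (τ z.2.1) ∧
        ∀ x, a (τ (π x)) ≠ a (τ x) → x = z.2.1 ∨ x = z.2.2 ∨ x = π z.2.1 ∨ x = π z.2.2) ∧
        z.1 = τ * swap z.2.1 z.2.2 := by
      rintro ⟨σ, p, q⟩ hz
      obtain ⟨⟨⟨⟨h1, -⟩, -⟩, hp, hq, hpq⟩, e⟩ := hT _ hz
      exact ⟨fb_facts hπ h1 hp hq hpq (fun x => a (τ x)) fun x => by rw [← e]; rfl,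
        by rw [← e]; simp [mul_assoc]⟩
    rcases T.eq_empty_or_nonempty with h | ⟨z₀, h₀⟩
    · rw [h]; simp
    refine le_trans (card_le_card_of_injOn (t := {z₀.2.1, z₀.2.2, π z₀.2.1, π z₀.2.2})
      (fun z => z.2.1) (fun z hz => ?_) fun z hz z' hz' e => ?_) card_le_four
    · obtain ⟨⟨-, -, f2, f3, -, -⟩, -⟩ := key z hz
      simpa using (key z₀ h₀).1.2.2.2.2.2 z.2.1 fun e => f2 (e.symm.trans f3)
    · obtain ⟨⟨f0, f1, f2, -, f4, -⟩, f6⟩ := key z hz
      obtain ⟨⟨-, -, -, -, g4, g5⟩, g6⟩ := key z' hz'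
      have e' : z.2.1 = z'.2.1 := e
      have e2 : z.2.2 = z'.2.2 := by
        rcases g5 z.2.2 fun e => f2 (f4.symm.trans e) with h | h | h | h
        · exact absurd (h.trans e'.symm) f0
        · exact h
        · exact absurd (h.trans (by rw [e'])) f1
        · exact absurd (by rw [h, g4, e']) f2
      exact Prod.ext (by rw [f6, g6, e', e2]) (Prod.ext e' e2)

lemma hit_count (i : ι) : num (Hit π i) * Fintype.card ι =
    (univ.filter fun x => π x = x).card * Fintype.card (Perm ι) := by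
  classical
  let F : ι → ℕ := fun p => (univ.filter fun σ : Perm ι => σ.symm i = p).card
  have hF : ∀ p, F p = F i := by
    have : ∀ p p', F p ≤ F p' := fun p p' =>
      card_le_card_of_injOn (fun σ => σ * swap p p') (fun σ hσ => by
        simp only [coe_filter, mem_univ, true_and, Set.mem_ofPred_eq, symm_apply_eq] at hσ ⊢
        simp [hσ]) fun σ _ σ' _ e => mul_right_cancel e
    exact fun p => le_antisymm (this _ _) (this _ _)
  have h1 : ∀ T : Finset ι, (univ.filter fun σ : Perm ι => σ.symm i ∈ T).card = T.card * F i := by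
    intro T
    rw [← sum_card_fiberwise_eq_card_filter, ← smul_eq_mul, ← sum_const]
    exact sum_congr rfl fun p _ => hF p
  have h2 := h1 univ
  have h3 := h1 (univ.filter fun x => π x = x)
  simp only [mem_univ, filter_true, card_univ, mem_filter, true_and] at h2 h3
  have h4 : num (Hit π i) = ((univ.filter fun x => π x = x).card * F i : ℕ) := by
    rw [← h3, num]
    congr
  rw [h4, h2]
  push_cast
  ring

lemma hit_le {i j : ι} (hij : a i ≠ a j) (hZ : ∀ x, π x = x → ∃ y, y ≠ x ∧ π y = y) :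
    num (Hit π i) ≤ num fun σ => ¬ Tg π a σ := by
  classical
  have hj : ∀ σ, Hit π i σ → Tg π a σ → ¬ Hit π j σ := fun σ h1 h2 h3 => by
    have := h2 _ _ h1 h3
    simp only [apply_symm_apply] at this
    exact hij this
  have hs : ∀ σ : Perm ι, (swap i j * σ).symm i = σ.symm j := fun σ => by
    rw [symm_apply_eq]
    simp
  unfold num
  refine Nat.cast_le.2 (card_le_card_of_injOn (fun σ => if Tg π a σ then swap i j * σ else σ)
    (fun σ hσ => ?_) fun σ hσ σ' hσ' e => ?_)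
  · simp only [coe_filter, mem_univ, true_and, Set.mem_ofPred_eq] at hσ ⊢
    split_ifs with h
    · intro h'
      obtain ⟨y, hy1, hy2⟩ := hZ _ hσ
      have e1 := h' _ _ hσ hy2
      have e2 := h _ _ hσ hy2
      have e3 : σ y ≠ i := fun e => hy1 (by rw [← e]; simp)
      have e4 : σ y ≠ j := fun e => hij (by rw [← e, ← e2]; simp)
      simp only [Perm.mul_apply, apply_symm_apply, swap_apply_left,
        swap_apply_of_ne_of_ne e3 e4] at e1 e2
      exact hij (e2.trans e1.symm)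
    · exact h
  · simp only [coe_filter, mem_univ, true_and, Set.mem_ofPred_eq] at hσ hσ'
    dsimp only at e
    split_ifs at e with h h' h'
    · exact mul_left_cancel e
    · refine absurd ?_ (hj σ hσ h)
      rw [← e, Hit, hs] at hσ'
      exact hσ'
    · refine absurd ?_ (hj σ' hσ' h')
      rw [e, Hit, hs] at hσ
      exact hσ
    · exact e

lemma out_hit (hZ : (univ.filter fun x => π x = x).card < (univ.filter fun x => π x ≠ x).card)
    {σ₀ σ : Perm ι} (h₀ : ¬ Out π a σ₀) (h : ¬ Out π a σ) {x₀ i : ι} (hx : π x₀ ≠ x₀)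
    (hi : a i ≠ a (σ₀ x₀)) : Hit π i σ := by
  by_contra hc
  refine absurd (card_le_card_of_injOn (fun x => σ₀.symm (σ x)) (fun x hx' => ?_)
    fun x _ y _ e => σ.injective (σ₀.symm.injective e)) (not_le.2 hZ)
  simp only [coe_filter, mem_univ, true_and, Set.mem_ofPred_eq] at hx' ⊢
  by_contra h1
  have e1 : a (σ x) = a (σ (σ.symm i)) := not_not.1 fun e => h ⟨_, _, hx', hc, e⟩
  have e2 : a (σ₀ (σ₀.symm (σ x))) = a (σ₀ x₀) := not_not.1 fun e => h₀ ⟨_, _, h1, hx, e⟩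
  simp only [apply_symm_apply] at e1 e2
  exact hi (e1.symm.trans e2)

omit [Fintype ι] [DecidableEq ι] in
lemma sep (ha : ∃ x y, a x ≠ a y) {σ : Perm ι} (h : ¬ Out π a σ) (h' : Tg π a σ) {x z : ι}
    (hx : π x ≠ x) (hz : π z = z) : a (σ z) ≠ a (σ x) := by
  intro e
  obtain ⟨u, v, huv⟩ := ha
  have : ∀ w, a (σ w) = a (σ x) := fun w => by
    by_cases hw : π w = w
    · exact (h' _ _ hw hz).trans e
    · exact not_not.1 fun e => h ⟨_, _, hw, hx, e⟩
  have e1 := (this (σ.symm u)).trans (this (σ.symm v)).symm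
  simp only [apply_symm_apply] at e1
  exact huv e1

lemma move_out (ha : ∃ x y, a x ≠ a y) {i i' : ι} (hii : i' ≠ i)
    (h : ∀ σ, ¬ Out π a σ → Hit π i σ ∧ Hit π i' σ) :
    (univ.filter fun x => π x ≠ x).card * num (fun σ => ¬ Out π a σ ∧ Tg π a σ) ≤
      num fun σ => Hit π i' σ ∧ ¬ Hit π i σ := by
  classical
  have hs : ∀ (σ : Perm ι) (p q y : ι), (σ * swap p q).symm y = swap p q (σ.symm y) :=
    fun σ p q y => by
      rw [symm_apply_eq]
      simp
  have h1 := dcount (fun σ => ¬ Out π a σ ∧ Tg π a σ) (fun σ => Hit π i' σ ∧ ¬ Hit π i σ)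
    (fun _ q => π q ≠ q) (fun σ q => σ * swap (σ.symm i) q) (univ.filter fun x => π x ≠ x).card 1
    (fun _ _ => ⟨_, le_rfl, fun w hw => (mem_filter.1 hw).2⟩) ?_ ?_
  · simpa using h1
  · rintro σ q ⟨h1, -⟩ hq
    obtain ⟨h2, h3⟩ := h σ h1
    simp only [Hit, hs, swap_apply_left]
    rw [swap_apply_of_ne_of_ne (σ.symm.injective.ne hii) fun e => hq (by rw [← e]; exact h3)]
    exact ⟨h3, hq⟩
  · refine fun τ T hT => card_le_one.2 ?_
    rintro ⟨σ, q⟩ h1 ⟨σ', q'⟩ h2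
    obtain ⟨⟨⟨a1, a2⟩, a3⟩, a4⟩ := hT _ h1
    obtain ⟨⟨⟨b1, b2⟩, b3⟩, b4⟩ := hT _ h2
    dsimp only at a1 a2 a3 a4 b1 b2 b3 b4
    have e1 : q = q' := by
      have t1 := hs σ (σ.symm i) q i
      have t2 := hs σ' (σ'.symm i) q' i
      rw [swap_apply_left] at t1 t2
      rw [← t1, ← t2, a4, b4]
    subst e1
    have e2 : σ.symm i = σ'.symm i := by
      by_contra e
      have t1 : τ (σ.symm i) = σ q := by rw [← a4]; simp
      have t2 : τ (σ.symm i) = σ' (σ.symm i) := by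
        rw [← b4, Perm.mul_apply, swap_apply_of_ne_of_ne e fun e' => a3 (by rw [← e']; exact (h σ a1).1)]
      have t3 := sep ha a1 a2 a3 (h σ a1).1
      have t4 := b2 _ _ (h σ a1).1 (h σ' b1).1
      rw [← t2, t1] at t4
      simp only [apply_symm_apply] at t3 t4
      exact t3 t4.symm
    rw [e2, ← b4] at a4
    rw [mul_right_cancel a4]

lemma fill (ha : ∃ x y, a x ≠ a y) {σ₀ τ : Perm ι} (h₀ : ¬ Out π a σ₀) (h₁ : Tg π a σ₀) {z : ι}
    (hz : π z = z) (hτ : Tg π a τ) (hh : Hit π (σ₀ z) τ) (y : ι) :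
    Hit π y τ ↔ Hit π y σ₀ := by
  have key : (univ.filter fun x => π x = x).image (fun x => σ₀.symm (τ x)) =
      univ.filter fun x => π x = x := by
    refine eq_of_subset_of_card_le (fun w hw => ?_) (le_of_eq (card_image_of_injective _
      fun x y e => τ.injective (σ₀.symm.injective e)).symm)
    obtain ⟨x, hx', rfl⟩ := mem_image.1 hw
    refine mem_filter.2 ⟨mem_univ _, by_contra fun hc => sep ha h₀ h₁ hc hz ?_⟩
    have := hτ _ _ hh (mem_filter.1 hx').2
    simpa using this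
  constructor
  · intro h
    have : σ₀.symm (τ (τ.symm y)) ∈ univ.filter fun x => π x = x :=
      key ▸ mem_image_of_mem _ (mem_filter.2 ⟨mem_univ _, h⟩)
    simpa [Hit] using this
  · intro h
    obtain ⟨x, hx', e⟩ := mem_image.1 (key.symm ▸ mem_filter.2 ⟨mem_univ _, h⟩ :
      σ₀.symm y ∈ (univ.filter fun x => π x = x).image (fun x => σ₀.symm (τ x)))
    rw [Hit, ← σ₀.symm.injective e, symm_apply_apply]
    exact (mem_filter.1 hx').2

/-- The two estimates on the fixed set. -/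
lemma fixed_est (ha : ∃ x y, a x ≠ a y) (hZ : ∀ x, π x = x → ∃ y, y ≠ x ∧ π y = y)
    (hZ' : (univ.filter fun x => π x = x).card < (univ.filter fun x => π x ≠ x).card) :
    ∃ H : ℝ, H * Fintype.card ι = (univ.filter fun x => π x = x).card * Fintype.card (Perm ι) ∧
      num (fun σ => ¬ Out π a σ) + (univ.filter fun x => π x ≠ x).card *
        num (fun σ => ¬ Out π a σ ∧ Tg π a σ) ≤ H ∧
      H + ((univ.filter fun x => π x ≠ x).card - 1) * num (fun σ => ¬ Out π a σ ∧ Tg π a σ) ≤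
        num fun σ => ¬ Tg π a σ := by
  classical
  obtain ⟨x₀, hx⟩ := card_pos.1 (Nat.zero_lt_of_lt hZ')
  replace hx := (mem_filter.1 hx).2
  have hne : ∀ v, ∃ i, a i ≠ v := fun v => by
    obtain ⟨x, y, h⟩ := ha
    by_cases e : a x = v
    · exact ⟨y, fun e' => h (e.trans e'.symm)⟩
    · exact ⟨x, e⟩
  have hD : (0 : ℝ) < Fintype.card ι := by exact_mod_cast Fintype.card_pos_iff.2 ⟨x₀⟩
  have hH : ∀ i j, num (Hit π i) = num (Hit π j) := fun i j =>
    mul_right_cancel₀ hD.ne' ((hit_count i).trans (hit_count j).symm)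
  refine ⟨num (Hit π x₀), hit_count x₀, ?_⟩
  by_cases hF : ∃ σ, ¬ Out π a σ ∧ Tg π a σ
  · obtain ⟨σ₀, h₀, h₁⟩ := hF
    obtain ⟨i, hi⟩ := hne (a (σ₀ x₀))
    have hz := out_hit hZ' h₀ h₀ hx hi
    obtain ⟨z', hz1, hz2⟩ := hZ _ hz
    have hb : ∀ σ, ¬ Out π a σ → Hit π i σ ∧ Hit π (σ₀ z') σ := fun σ h =>
      ⟨out_hit hZ' h₀ h hx hi, out_hit hZ' h₀ h hx (sep ha h₀ h₁ hx hz2)⟩
    have h2 := move_out ha (fun e => hz1 (by rw [← e]; simp)) hb
    constructor
    · rw [hH x₀ (σ₀ z')]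
      exact le_trans (add_le_add le_rfl h2) (num_add (fun σ h h' => h'.2 (hb σ h).1)
        (fun σ h => (hb σ h).2) fun σ h => h.1)
    · have h3 : num (fun σ => Hit π i σ ∧ ¬ (¬ Out π a σ ∧ Tg π a σ)) +
          num (fun σ => Hit π (σ₀ z') σ ∧ ¬ Hit π i σ) ≤ num fun σ => ¬ Tg π a σ := by
        refine num_add (fun σ h h' => h'.2 h.1) (fun σ h ht => h.2 ⟨?_, ht⟩) fun σ h ht => h.2 ?_
        · have e := fill ha h₀ h₁ hz ht (by simpa using h.1)
          rintro ⟨x, y, h4, h5, h6⟩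
          refine h₀ ⟨σ₀.symm (σ x), σ₀.symm (σ y), fun h => h4 ?_, fun h => h5 ?_, by simpa using h6⟩
          · simpa [Hit] using (e _).2 h
          · simpa [Hit] using (e _).2 h
        · exact (fill ha h₀ h₁ hz2 ht h.1 i).2 hz
      have h4 : num (Hit π i) ≤ num (fun σ => Hit π i σ ∧ ¬ (¬ Out π a σ ∧ Tg π a σ)) +
          num (fun σ => ¬ Out π a σ ∧ Tg π a σ) := by
        simp only [num_eq, ← sum_add_distrib]
        refine sum_le_sum fun σ _ => ?_
        split_ifs <;> simp_all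
      rw [hH x₀ i]
      linarith
  · rw [num_zero (not_exists.1 hF), mul_zero, mul_zero, add_zero, add_zero]
    constructor
    · by_cases hE : ∃ σ, ¬ Out π a σ
      · obtain ⟨σ₀, h₀⟩ := hE
        obtain ⟨i, hi⟩ := hne (a (σ₀ x₀))
        rw [hH x₀ i]
        exact num_mono fun σ h => out_hit hZ' h₀ h hx hi
      · rw [num_zero (not_exists.1 hE)]
        exact num_nonneg _
    · obtain ⟨j, hj⟩ := hne (a x₀)
      exact hit_le hj.symm hZ

end Pool.Agent.MP_0ea322_co.h46
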