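import Mathlib

/-!
Sequential choice of a weakly covered point of the triangular grid along a list of moves.
-/

namespace Pool.Agent.MP_0ea322_co.h46

open Finset

variable {ι J : Type} [Fintype ι] [DecidableEq ι]

/-- The value of a linear form at a grid point. -/
def dot (a : ι → ℝ) (x : ι → ℕ) : ℝ := ∑ i, a i * x i

/-- Move `t` units from `u` to `v`. -/
def mv (u v : ι) (t : ℕ) (x : ι → ℕ) : ι → ℕ := x - Pi.single u t + Pi.single v t

omit [Fintype ι] in
lemma mv_add {u v : ι} {t : ℕ} {x : ι → ℕ} (h : t ≤ x u) (w : ι) :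
    mv u v t x w + (Pi.single u t : ι → ℕ) w = x w + (Pi.single v t : ι → ℕ) w := by
  have : (Pi.single u t : ι → ℕ) w ≤ x w := by
    rw [Pi.single_apply]
    split_ifs with h1
    · rw [h1]; exact h
    · exact Nat.zero_le _
  simp only [mv, Pi.add_apply, Pi.sub_apply]
  omega

lemma dot_mv (a : ι → ℝ) {u v : ι} {t : ℕ} {x : ι → ℕ} (h : t ≤ x u) :
    dot a (mv u v t x) = dot a x + t * (a v - a u) := by
  have h1 : ∀ y : ι, ∑ i, a i * ((Pi.single y t : ι → ℕ) i : ℝ) = a y * t := by
    intro y
    rw [sum_eq_single y]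
    · simp
    · intro b _ hb
      simp [Pi.single_eq_of_ne hb]
    · simp
  have h2 : ∑ i, a i * ((mv u v t x i : ℝ) + (Pi.single u t : ι → ℕ) i) =
      ∑ i, a i * ((x i : ℝ) + (Pi.single v t : ι → ℕ) i) :=
    sum_congr rfl fun i _ => by rw [← Nat.cast_add, ← Nat.cast_add, mv_add h]
  simp only [mul_add, sum_add_distrib, h1] at h2
  unfold dot
  linarith

lemma sum_mv {u v : ι} {t : ℕ} {x : ι → ℕ} (h : t ≤ x u) : ∑ i, mv u v t x i = ∑ i, x i := by
  have h2 : ∑ i, (mv u v t x i + (Pi.single u t : ι → ℕ) i) =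
      ∑ i, (x i + (Pi.single v t : ι → ℕ) i) := sum_congr rfl fun i _ => mv_add h i
  simp only [sum_add_distrib, sum_pi_single', mem_univ, if_true] at h2
  omega

open Classical in
lemma pigeon (S : Finset J) (r lo : ℕ) (P : J → ℕ → Prop)
    (hP : ∀ j ∈ S, ∀ t t', P j t → P j t' → t = t') :
    ∃ t, lo ≤ t ∧ t ≤ lo + S.card / (r + 1) ∧ (S.filter fun j => P j t).card ≤ r := by
  by_contra h
  push Not at h
  have h1 : ∑ t ∈ Icc lo (lo + S.card / (r + 1)), (r + 1) ≤
      ∑ t ∈ Icc lo (lo + S.card / (r + 1)), (S.filter fun j => P j t).card :=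
    sum_le_sum fun t ht => h t (mem_Icc.1 ht).1 (mem_Icc.1 ht).2
  rw [← card_biUnion] at h1
  · have h2 := h1.trans (card_le_card (biUnion_subset.2 fun t _ => filter_subset _ S))
    rw [sum_const, Nat.card_Icc, smul_eq_mul] at h2
    have h3 := Nat.lt_div_mul_add (a := S.card) (Nat.succ_pos r)
    have h4 : lo + S.card / (r + 1) + 1 - lo = S.card / (r + 1) + 1 := by
      generalize S.card / (r + 1) = g
      omega
    rw [h4, add_mul, one_mul] at h2
    exact absurd h3 (not_lt.2 h2)
  · intro t _ t' _ htt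
    refine disjoint_filter.2 fun j hj h1 h2 => htt (hP j hj t t' h1 h2)

open Classical in
theorem tree [Fintype J] (a : J → ι → ℝ) (c : J → ℝ) (u v : ℕ → ι) (r : ℕ → ℕ) (dec : J → ℕ)
    (h1 : ∀ j, a j (u (dec j)) ≠ a j (v (dec j)))
    (h2 : ∀ j s, s < dec j → a j (u s) = a j (v s)) (M : ℕ) :
    ∃ need : ι → ℕ, ((∑ i, need i : ℕ) : ℝ) ≤
        ∑ s ∈ range M, ((univ.filter fun j => dec j = s).card : ℝ) / (r s + 1) ∧
      ∀ x : ι → ℕ, (∀ i, need i ≤ x i) → ∃ y : ι → ℕ, ∑ i, y i = ∑ i, x i ∧
        (∀ j, M ≤ dec j → dot (a j) y = dot (a j) x) ∧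
        (univ.filter fun j => dec j < M ∧ dot (a j) y = c j).card ≤ ∑ s ∈ range M, r s := by
  induction M with
  | zero => exact ⟨0, by simp, fun x _ => ⟨x, rfl, fun _ _ => rfl, by simp⟩⟩
  | succ M ih =>
    obtain ⟨need, hn, ih⟩ := ih
    set S := univ.filter fun j => dec j = M with hS
    set g := S.card / (r M + 1) with hg
    refine ⟨Function.update need (v M) 0 + Pi.single (u M) (need (v M) + g), ?_, fun x hx => ?_⟩
    · have e1 : ∑ i, (Function.update need (v M) 0 + Pi.single (u M) (need (v M) + g) : ι → ℕ) i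
          = ∑ i, need i + g := by
        simp only [Pi.add_apply, sum_add_distrib, sum_pi_single', mem_univ, if_true]
        rw [sum_update_of_mem (mem_univ _), ← add_sum_erase _ need (mem_univ (v M)),
          sdiff_singleton_eq_erase]
        ring
      rw [e1, sum_range_succ, Nat.cast_add]
      refine add_le_add hn ?_
      have := Nat.cast_div_le (α := ℝ) (m := S.card) (n := r M + 1)
      simpa using this
    · have hu : need (v M) + g ≤ x (u M) := by
        have := hx (u M)
        simp only [Pi.add_apply, Pi.single_eq_same] at this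
        omega
      obtain ⟨t, ht1, ht2, ht3⟩ := pigeon S (r M) (need (v M))
        (fun j t => dot (a j) x + t * (a j (v M) - a j (u M)) = c j) (by
          intro j hj t t' e1 e2
          have e3 := h1 j
          rw [(mem_filter.1 hj).2] at e3
          have e4 : (t : ℝ) * (a j (v M) - a j (u M)) = t' * (a j (v M) - a j (u M)) := by linarith
          exact_mod_cast mul_right_cancel₀ (sub_ne_zero.2 e3.symm) e4)
      have ht : t ≤ x (u M) := ht2.trans hu
      obtain ⟨y, hy1, hy2, hy3⟩ := ih (mv (u M) (v M) t x) (by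
        intro i
        have e1 := mv_add (v := v M) ht i
        have e2 := hx i
        simp only [Pi.add_apply, Pi.single_apply, Function.update_apply] at e1 e2
        by_cases e3 : i = v M
        · subst e3
          split_ifs at e1 e2 <;> omega
        · split_ifs at e1 e2 <;> omega)
      refine ⟨y, hy1.trans (sum_mv ht), fun j hj => ?_, ?_⟩
      · rw [hy2 j (by omega), dot_mv _ ht, h2 j M hj]
        ring
      · rw [sum_range_succ]
        refine le_trans (card_le_card fun j hj => ?_)
          ((card_union_le _ _).trans (add_le_add hy3 ht3))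
        obtain ⟨-, e1, e2⟩ := mem_filter.1 hj
        rcases Nat.lt_succ_iff_lt_or_eq.1 e1 with e3 | e3
        · exact mem_union_left _ (mem_filter.2 ⟨mem_univ _, e3, e2⟩)
        · refine mem_union_right _ (mem_filter.2 ⟨mem_filter.2 ⟨mem_univ _, e3⟩, ?_⟩)
          rw [← e2, hy2 j e3.ge, dot_mv _ ht]

/-- A subset of prescribed size carrying at least its share of the total. -/
lemma share (e : ℕ → ℝ) (he : ∀ i, 0 ≤ e i) (s : ℕ) (T : Finset ℕ) (h : s ≤ T.card) :
    ∃ S ⊆ T, S.card = s ∧ s * ∑ i ∈ T, e i ≤ T.card * ∑ i ∈ S, e i := by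
  induction hc : T.card generalizing T with
  | zero => exact ⟨∅, by simp, by simp; omega, by simp [show s = 0 by omega]⟩
  | succ t ih =>
    rcases Nat.eq_or_lt_of_le h with h1 | h1
    · exact ⟨T, Subset.rfl, h1.symm, by rw [h1, hc]⟩
    obtain ⟨i, hi, hmin⟩ := exists_min_image T e (card_pos.1 (by omega))
    have h2 : (T.erase i).card = t := by rw [card_erase_of_mem hi, hc]; rfl
    obtain ⟨S, h3, h4, h5⟩ := ih (T.erase i) (by omega) h2
    refine ⟨S, h3.trans (erase_subset _ _), h4, ?_⟩
    rw [← add_sum_erase _ e hi]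
    have h6 : (t : ℝ) * e i ≤ ∑ j ∈ T.erase i, e j := by
      have := card_nsmul_le_sum (T.erase i) e (e i) fun j hj => hmin j (mem_of_mem_erase hj)
      rwa [h2, nsmul_eq_mul] at this
    rcases Nat.eq_zero_or_pos t with h7 | h7
    · have : s = 0 := by omega
      subst this
      simp only [Nat.cast_zero, zero_mul]
      exact mul_nonneg (Nat.cast_nonneg _) (sum_nonneg fun j _ => he j)
    · have h8 : (0 : ℝ) < t := by exact_mod_cast h7
      refine le_of_mul_le_mul_left ?_ h8
      push_cast
      nlinarith [mul_le_mul_of_nonneg_left h6 (Nat.cast_nonneg (α := ℝ) s)]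

end Pool.Agent.MP_0ea322_co.h46
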